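import Pool.Agent.Mg.Fe5b4ec.Ge7f7d6

section

open Real MeasureTheory Filter Topology Set

namespace Pool.Agent.MP_e5b4ec_an

/-- periodic extension of `φ - id` from `[-π, π]` -/
noncomputable def perExt (φ : ℝ → ℝ) (x : ℝ) : ℝ :=
  φ (2 * π * Int.fract ((x + π) / (2 * π)) - π) - (2 * π * Int.fract ((x + π) / (2 * π)) - π)

lemma perExt_cont {φ : ℝ → ℝ} (hc : Continuous φ) (h1 : φ π = π) (h2 : φ (-π) = -π) :
    Continuous (perExt φ) := by
  have hg : Continuous (fun s : ℝ => φ (2 * π * s - π) - (2 * π * s - π)) := by fun_prop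
  have := ContinuousOn.comp_fract'' (f := fun s : ℝ => φ (2 * π * s - π) - (2 * π * s - π))
    hg.continuousOn (by
      simp only [mul_zero, zero_sub, mul_one]
      rw [show 2 * π - π = π by ring, h1, h2]; ring)
  exact this.comp (by fun_prop : Continuous fun x : ℝ => (x + π) / (2 * π))

lemma perExt_per (φ : ℝ → ℝ) : Function.Periodic (perExt φ) (2 * π) := by
  intro x
  unfold perExt
  have : (x + 2 * π + π) / (2 * π) = (x + π) / (2 * π) + 1 := by
    have := Real.pi_ne_zero
    field_simp; ring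
  rw [this, Int.fract_add_one]

lemma perExt_eq {φ : ℝ → ℝ} (h1 : φ π = π) (h2 : φ (-π) = -π) {x : ℝ} (ha : -π ≤ x) (hb : x ≤ π) :
    perExt φ x = φ x - x := by
  have hpi := Real.pi_pos
  have main : ∀ y, -π ≤ y → y < π → perExt φ y = φ y - y := by
    intro y ha hb
    unfold perExt
    rw [Int.fract_eq_self.mpr ⟨div_nonneg (by linarith) (by positivity),
      by rw [div_lt_one (by positivity)]; linarith⟩]
    have : 2 * π * ((y + π) / (2 * π)) - π = y := by field_simp; ring
    rw [this]
  rcases hb.lt_or_eq with hb | rfl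
  · exact main x ha hb
  · have := perExt_per φ (-π)
    rw [show -π + 2 * π = π by ring] at this
    rw [this, main (-π) le_rfl (by linarith), h1, h2]; ring

lemma exists_red (a x : ℝ) : ∃ n : ℤ, a < x - n * (2 * π) ∧ x - n * (2 * π) ≤ a + 2 * π := by
  have hp : 0 < 2 * π := by positivity
  refine ⟨toIocDiv hp a x, ?_⟩
  have := sub_toIocDiv_zsmul_mem_Ioc hp a x
  rw [zsmul_eq_mul] at this
  exact this

lemma perExt_odd {φ : ℝ → ℝ} (h1 : φ π = π) (hodd : ∀ x, φ (-x) = -φ x) (x : ℝ) :
    perExt φ (-x) = -perExt φ x := by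
  have h2 : φ (-π) = -π := by rw [hodd, h1]
  obtain ⟨n, hn1, hn2⟩ := exists_red (-π) x
  have e1 := (perExt_per φ).sub_int_mul_eq (x := x) n
  have e2 := (perExt_per φ).int_mul n (-x)
  rw [← e1, ← e2, perExt_eq h1 h2 hn1.le (by linarith),
    perExt_eq h1 h2 (by linarith) (by linarith),
    show -x + n * (2 * π) = -(x - n * (2 * π)) by ring, hodd]
  ring

lemma strictMono_of_per {H : ℝ → ℝ} (hper : ∀ (n : ℤ) x, H (x - n * (2 * π)) = H x - n * (2 * π))
    (h0 : H 0 = 0) (hm : StrictMonoOn H (Icc 0 (2 * π))) : StrictMono H := by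
  intro x y hxy
  have hpi := Real.pi_pos
  have h2 : H (2 * π) = 2 * π := by
    have := hper 1 (2 * π)
    simp only [Int.cast_one, one_mul, sub_self, h0] at this
    linarith
  obtain ⟨n, hn1, hn2⟩ := exists_red 0 x
  obtain ⟨m, hm1, hm2⟩ := exists_red 0 y
  rw [zero_add] at hn2 hm2
  have e1 := hper n x
  have e2 := hper m y
  have hnm : n ≤ m := by
    have : (n:ℝ) * (2 * π) < (m + 1) * (2 * π) := by linarith
    have := lt_of_mul_lt_mul_right this (by positivity)
    have : n < m + 1 := by exact_mod_cast this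
    omega
  rcases hnm.eq_or_lt with rfl | hlt
  · have := hm ⟨hn1.le, hn2⟩ ⟨hm1.le, hm2⟩ (by linarith)
    linarith
  · have a1 : H (x - n * (2 * π)) ≤ 2 * π := by
      have := hm.monotoneOn ⟨hn1.le, hn2⟩ ⟨by positivity, le_rfl⟩ hn2
      rwa [h2] at this
    have a2 : 0 < H (y - m * (2 * π)) := by
      rw [← h0]
      exact hm ⟨le_rfl, by positivity⟩ ⟨hm1.le, hm2⟩ hm1
    have a3 : (n:ℝ) + 1 ≤ m := by exact_mod_cast hlt
    nlinarith

noncomputable def vv (η q : ℝ) : ℝ → ℝ := perExt (fun x => f η q x - f η q (-x))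

noncomputable def HH (η q x : ℝ) : ℝ := x + vv η q x

section
variable {η q : ℝ} (P : Par η q)
include P

lemma phi_pi : (fun x => f η q x - f η q (-x)) π = π := by
  simp only; rw [f_pi P le_rfl, f_zero P (by linarith [Real.pi_pos])]; ring
lemma phi_negpi : (fun x => f η q x - f η q (-x)) (-π) = -π := by
  simp only; rw [neg_neg, f_pi P le_rfl, f_zero P (by linarith [Real.pi_pos])]; ring

lemma vv_cont : Continuous (vv η q) :=
  perExt_cont ((f_cont P).sub ((f_cont P).comp continuous_neg)) (phi_pi P) (phi_negpi P)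

omit P in
lemma vv_per : Function.Periodic (vv η q) (2 * π) := perExt_per _

lemma vv_odd (x : ℝ) : vv η q (-x) = -vv η q x :=
  perExt_odd (phi_pi P) (fun x => by simp) x

lemma HH_odd (x : ℝ) : HH η q (-x) = -HH η q x := by
  unfold HH; rw [vv_odd P]; ring

omit P in
lemma HH_per (n : ℤ) (x : ℝ) : HH η q (x - n * (2 * π)) = HH η q x - n * (2 * π) := by
  unfold HH; rw [vv_per.sub_int_mul_eq]; ring

lemma HH_refl (x : ℝ) : HH η q (2 * π - x) = 2 * π - HH η q x := by
  have := HH_per (η := η) (q := q) 1 (2 * π - x)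
  rw [show 2 * π - x - ((1:ℤ):ℝ) * (2 * π) = -x by push_cast; ring, HH_odd P] at this
  push_cast at this
  linarith

lemma HH_left {x : ℝ} (h0 : 0 ≤ x) (h1 : x ≤ π) : HH η q x = f η q x := by
  unfold HH vv
  rw [perExt_eq (phi_pi P) (phi_negpi P) (by linarith [Real.pi_pos]) h1,
    f_zero P (x := -x) (by linarith)]
  ring

lemma HH_eq {x : ℝ} (h0 : 0 ≤ x) (h1 : x ≤ 2 * π) :
    HH η q x = f η q x - f η q (2 * π - x) + π := by
  rcases le_total x π with h | h
  · rw [HH_left P h0 h, f_pi P (x := 2 * π - x) (by linarith)]; ring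
  · have := HH_refl P x
    rw [HH_left P (by linarith) (by linarith)] at this
    rw [f_pi P h]; linarith

lemma HH_low {x y : ℝ} (h0 : 0 ≤ x) (hxy : x ≤ y) (h1 : y ≤ 2 * π) :
    (1 - q) * η / 6 * (y - x) ≤ HH η q y - HH η q x := by
  have hpi := Real.pi_pos
  have key : ∀ a b, 0 ≤ a → a ≤ b → b ≤ π → (1 - q) * η / 6 * (b - a) ≤ f η q b - f η q a := by
    intro a b ha hab hb
    have := f_slope_low P hpi le_rfl ha hab hb
    rwa [f_pi P le_rfl, div_self hpi.ne', mul_one] at this
  rw [HH_eq P h0 (hxy.trans h1), HH_eq P (h0.trans hxy) h1]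
  rcases le_total y π with hy | hy
  · have := key x y h0 hxy hy
    have := f_mono P (show 2 * π - y ≤ 2 * π - x by linarith)
    linarith
  · rcases le_total x π with hx | hx
    · have a1 := key x π h0 hx le_rfl
      have a2 := key (2 * π - y) π (by linarith) (by linarith) le_rfl
      rw [f_pi P le_rfl] at a1 a2
      rw [f_pi P hy, f_pi P (x := 2 * π - x) (by linarith)]
      linarith
    · have := key (2 * π - y) (2 * π - x) (by linarith) (by linarith) (by linarith)
      have := f_mono P hxy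
      linarith

lemma HH_strictMono : StrictMono (HH η q) := by
  refine strictMono_of_per HH_per ?_ ?_
  · rw [HH_left P le_rfl Real.pi_pos.le, f_zero P le_rfl]
  · intro x hx y hy hxy
    have := HH_low P hx.1 hxy.le hy.2
    have h1 := P.h1
    have h2 : 0 < 1 - q := by linarith [P.h4]
    have h3 : 0 < y - x := by linarith
    have : 0 < (1 - q) * η / 6 * (y - x) := by positivity
    linarith

lemma HH_low_left {r x y : ℝ} (h0 : 0 < r) (hr : r ≤ π) (hx : 0 ≤ x) (hxy : x ≤ y) (hy : y ≤ r) :
    (1 - q) * η / 6 * (f η q r / r) * (y - x) ≤ HH η q y - HH η q x := by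
  rw [HH_left P hx (by linarith), HH_left P (by linarith) (by linarith)]
  exact f_slope_low P h0 hr hx hxy hy

lemma HH_low_right {r x y : ℝ} (h0 : 0 < r) (hr : r ≤ π) (hx : 2 * π - r ≤ x) (hxy : x ≤ y)
    (hy : y ≤ 2 * π) :
    (1 - q) * η / 6 * (f η q r / r) * (y - x) ≤ HH η q y - HH η q x := by
  have := HH_low_left P h0 hr (x := 2 * π - y) (y := 2 * π - x) (by linarith) (by linarith)
    (by linarith)
  rw [HH_refl P, HH_refl P] at this
  have e : 2 * π - x - (2 * π - y) = y - x := by ring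
  rw [e] at this
  linarith

lemma HH_up {r x y : ℝ} (h0 : 0 < r) (hr : r ≤ π) (hx : r ≤ x) (hxy : x ≤ y)
    (hy : y ≤ 2 * π - r) :
    HH η q y - HH η q x ≤ 80 * (1 - q) / η * (f η q r / r) * (y - x) := by
  rw [HH_eq P (by linarith) (by linarith), HH_eq P (by linarith) (by linarith)]
  have a1 := f_slope_up P h0 hr hx hxy
  have a2 := f_slope_up P h0 hr (x := 2 * π - y) (y := 2 * π - x) (by linarith) (by linarith)
  have e : 2 * π - x - (2 * π - y) = y - x := by ring
  rw [e] at a2
  have e2 : 80 * (1 - q) / η * (f η q r / r) * (y - x)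
      = 2 * (40 * (1 - q) / η * (f η q r / r) * (y - x)) := by ring
  linarith

lemma HH_le {x : ℝ} (h0 : 0 ≤ x) (h1 : x ≤ 2 * π) : HH η q x ≤ 2 * f η q x := by
  rcases le_total x π with h | h
  · rw [HH_left P h0 h]; linarith [f_nonneg P x]
  · rw [HH_eq P h0 h1, f_pi P h]; linarith [f_nonneg P (2 * π - x)]

lemma HH_bump {x y : ℝ} (hx : x ≤ 4 * π / 3 - η) (hy : 4 * π / 3 ≤ y) :
    π * (1 - q) * (1 - η) ≤ HH η q y - HH η q x := by
  have hpi := Real.pi_gt_three
  have a1 := (HH_strictMono P).monotone hx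
  have a2 := (HH_strictMono P).monotone hy
  have a3 := HH_refl P (2 * π / 3)
  have a4 := HH_refl P (2 * π / 3 + η)
  rw [show 2 * π - 2 * π / 3 = 4 * π / 3 by ring,
    HH_left P (x := 2 * π / 3) (by linarith) (by linarith)] at a3
  rw [show 2 * π - (2 * π / 3 + η) = 4 * π / 3 - η by ring,
    HH_left P (x := 2 * π / 3 + η) (by linarith [P.h1]) (by linarith [P.h2])] at a4
  linarith [f_bump P]

lemma bump_ge (x : ℝ) : (1 - q) * (1 - 2 * η) * f η q x ≤ π * (1 - q) * (1 - η) := by
  have h1 := f_le_pi P x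
  have h2 := f_nonneg P x
  have h3 : 0 < 1 - q := by linarith [P.h4]
  have h4 : (1 - 2 * η) * f η q x ≤ π * (1 - η) := by nlinarith [P.h1, P.h2]
  nlinarith

lemma HH_gain {b : ℝ} (h0 : 0 ≤ b) (h1 : b ≤ π) :
    (1 - q) * (1 - 2 * η) * f η q (2 * b) ≤ HH η q (2 * b) - HH η q b := by
  have hpi := Real.pi_gt_three
  rcases le_total b (2 * π / 3) with h | h
  · have := f_gain P h0 h
    rw [HH_left P h0 h1, HH_eq P (by linarith) (by linarith)]
    linarith [f_le_pi P (2 * π - 2 * b)]
  · exact (bump_ge P _).trans (HH_bump P (by linarith [P.h2]) (by linarith))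

lemma HH_main {M : ℝ} (hη : η ≤ 1 / 4) (hM : (1 - q) * (1 - 2 * η) * M = 2)
    (hM2 : 307200 / η ^ 3 ≤ M) {a t : ℝ} (ha0 : 0 < a) (ha : a ≤ 2 * π) (ht0 : 0 < t)
    (ht : t ≤ π) : HH η q a - HH η q (a - t) ≤ M * (HH η q (a + t) - HH η q a) := by
  have hpi := Real.pi_gt_three
  have hη0 := P.h1
  have hq : 0 < 1 - q := by linarith [P.h4]
  have hmono := (HH_strictMono P).monotone
  have hM3 : 1920 / η ^ 2 ≤ M := by
    refine le_trans ?_ hM2
    rw [div_le_div_iff₀ (by positivity) (by positivity)]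
    have : 0 < η ^ 2 := by positivity
    nlinarith
  have hM8 : 8 ≤ M := by
    refine le_trans ?_ hM3
    rw [le_div_iff₀ (by positivity)]
    nlinarith
  have hH0 : HH η q 0 = 0 := by rw [HH_left P le_rfl (by linarith), f_zero P le_rfl]
  have hH2 : HH η q (2 * π) = 2 * π := by
    have := HH_refl P 0
    rwa [sub_zero, hH0, sub_zero] at this
  rcases le_or_gt (2 * π) (a + t) with hA | hA
  · -- J contains 2π
    have e1 := HH_per (η := η) (q := q) 1 (a + t)
    push_cast at e1
    rw [one_mul, HH_left P (by linarith) (by linarith)] at e1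
    have e2 := HH_refl P a
    rw [HH_left P (by linarith) (by linarith)] at e2
    have e3 := HH_refl P (a - t)
    have b1 : HH η q (2 * π - (a - t)) ≤ HH η q (2 * t) := hmono (by linarith)
    have b2 := HH_le P (x := 2 * t) (by linarith) (by linarith)
    have b3 := f_double P t
    have b4 := f_double P (t / 2)
    rw [show 2 * (t / 2) = t by ring] at b4
    have b5 : f η q (t / 2) ≤ f η q (a + t - 2 * π) + f η q (2 * π - a) := by
      rcases le_total (t / 2) (2 * π - a) with h | h
      · linarith [f_mono P h, f_nonneg P (a + t - 2 * π)]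
      · linarith [f_mono P (show t / 2 ≤ a + t - 2 * π by linarith), f_nonneg P (2 * π - a)]
    have b6 := f_nonneg P (2 * π - a)
    have b7 := f_nonneg P (t / 2)
    have b8 : f η q (t / 2) ≤ HH η q (a + t) - HH η q a := by linarith
    nlinarith
  rcases le_or_gt a t with hB | hB
  · -- I contains 0
    have e1 := HH_odd P (t - a)
    rw [show -(t - a) = a - t by ring, HH_left P (x := t - a) (by linarith) (by linarith)] at e1
    have e2 := HH_left P ha0.le (by linarith)
    have b1 := HH_gain P (b := (a + t) / 2) (by linarith) (by linarith)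
    rw [show 2 * ((a + t) / 2) = a + t by ring] at b1
    have b2 : HH η q a ≤ HH η q ((a + t) / 2) := hmono (by linarith)
    have b3 := f_mono P (show a ≤ a + t by linarith)
    have b4 := f_mono P (show t - a ≤ a + t by linarith)
    have b5 : (1 - q) * (1 - 2 * η) * f η q (a + t) ≤ HH η q (a + t) - HH η q a := by linarith
    have b6 := mul_le_mul_of_nonneg_left b5 (show 0 ≤ M by linarith)
    have e3 : M * ((1 - q) * (1 - 2 * η) * f η q (a + t)) = 2 * f η q (a + t) := by
      linear_combination f η q (a + t) * hM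
    linarith
  rcases le_or_gt π a with hC | hC
  · rcases le_or_gt ((2 * π - a) / 4) (a - t) with hD | hD
    · have b1 := HH_low_right P (r := 2 * π - a) (x := a) (y := a + t) (by linarith) (by linarith)
        (by linarith) (by linarith) hA.le
      have b2 := HH_up P (r := (2 * π - a) / 4) (x := a - t) (y := a) (by linarith) (by linarith)
        hD (by linarith) (by linarith)
      have hr : 0 < 2 * π - a := by linarith
      have b3 : f η q ((2 * π - a) / 4) / ((2 * π - a) / 4) ≤ 4 * (f η q (2 * π - a) / (2 * π - a)) := by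
        have := f_mono P (show (2 * π - a) / 4 ≤ 2 * π - a by linarith)
        rw [div_le_iff₀ (by linarith)]
        have e : 4 * (f η q (2 * π - a) / (2 * π - a)) * ((2 * π - a) / 4) = f η q (2 * π - a) := by
          field_simp
        linarith
      set ψ := f η q (2 * π - a) / (2 * π - a) with hψ
      have hψ0 : 0 ≤ ψ := div_nonneg (f_nonneg P _) hr.le
      rw [show a + t - a = t by ring] at b1
      rw [show a - (a - t) = t by ring] at b2
      have b4 : 80 * (1 - q) / η * (f η q ((2 * π - a) / 4) / ((2 * π - a) / 4)) * t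
          ≤ 80 * (1 - q) / η * (4 * ψ) * t := by gcongr
      have b5 : 80 * (1 - q) / η * (4 * ψ) * t = 1920 / η ^ 2 * ((1 - q) * η / 6 * ψ * t) := by
        field_simp; ring
      have b6 : 1920 / η ^ 2 * ((1 - q) * η / 6 * ψ * t) ≤ M * (HH η q (a + t) - HH η q a) :=
        mul_le_mul hM3 b1 (by positivity) (by linarith)
      linarith
    · have b1 := HH_bump P (x := a) (y := a + t) (by linarith) (by linarith)
      have b2 : HH η q a ≤ 2 * π := hH2 ▸ hmono ha
      have b3 : 0 ≤ HH η q (a - t) := hH0 ▸ hmono (by linarith)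
      have b4 := bump_ge P π
      rw [f_pi P le_rfl] at b4
      have b6 := mul_le_mul_of_nonneg_left (b4.trans b1) (show 0 ≤ M by linarith)
      have e3 : M * ((1 - q) * (1 - 2 * η) * π) = 2 * π := by linear_combination π * hM
      linarith
  · rcases le_or_gt (η / 320 * a) (a - t) with hD | hD
    · have b1 : (1 - q) * η / 6 * (f η q a / (2 * a)) * t ≤ HH η q (a + t) - HH η q a := by
        rcases le_total (a + t) π with h | h
        · have := HH_low_left P (r := a + t) (x := a) (y := a + t) (by linarith) h ha0.le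
            (by linarith) le_rfl
          rw [show a + t - a = t by ring] at this
          refine le_trans ?_ this
          have h2 : f η q a / (2 * a) ≤ f η q (a + t) / (a + t) :=
            div_le_div₀ (f_nonneg P _) (f_mono P (by linarith)) (by linarith) (by linarith)
          gcongr
        · have := HH_low P (x := a) (y := a + t) ha0.le (by linarith) hA.le
          rw [show a + t - a = t by ring] at this
          refine le_trans ?_ this
          have h2 : f η q a / (2 * a) ≤ 1 := by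
            rw [div_le_one (by linarith)]; linarith [f_le_pi P a]
          have : (1 - q) * η / 6 * (f η q a / (2 * a)) * t ≤ (1 - q) * η / 6 * 1 * t := by gcongr
          linarith
      have hs : η / 320 * a ≤ a := by nlinarith
      have b2 := HH_up P (r := η / 320 * a) (x := a - t) (y := a) (by positivity) (by linarith)
        hD (by linarith) (by linarith)
      rw [show a - (a - t) = t by ring] at b2
      have b3 := f_mono P hs
      have b4 : 80 * (1 - q) / η * (f η q (η / 320 * a) / (η / 320 * a)) * t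
          ≤ 80 * (1 - q) / η * (f η q a / (η / 320 * a)) * t := by gcongr
      have b5 : 80 * (1 - q) / η * (f η q a / (η / 320 * a)) * t
          = 307200 / η ^ 3 * ((1 - q) * η / 6 * (f η q a / (2 * a)) * t) := by
        field_simp; ring
      have := f_nonneg P a
      have b6 : 307200 / η ^ 3 * ((1 - q) * η / 6 * (f η q a / (2 * a)) * t)
          ≤ M * (HH η q (a + t) - HH η q a) :=
        mul_le_mul hM2 b1 (by positivity) (by linarith)
      linarith
    · set a' := min a (2 * π / 3) with ha'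
      have ha1 : a' ≤ a := min_le_left _ _
      have ha2 : a' ≤ 2 * π / 3 := min_le_right _ _
      have ha3 : 0 < a' := lt_min ha0 (by linarith)
      have b1 : (1 - q) * (1 - 2 * η) * f η q a ≤ HH η q (2 * a') - HH η q a := by
        rcases le_total a (2 * π / 3) with h | h
        · rw [ha', min_eq_left h]
          refine le_trans ?_ (HH_gain P ha0.le hC.le)
          have := f_mono P (show a ≤ 2 * a by linarith)
          have h3 : 0 ≤ (1 - q) * (1 - 2 * η) := mul_nonneg hq.le (by linarith)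
          gcongr
        · rw [ha', min_eq_right h]
          exact (bump_ge P _).trans (HH_bump P (by linarith) (by linarith))
      have hs : η / 320 * a' ≤ a' := by nlinarith
      have b2 := HH_up P (r := a') (x := 2 * a' - η / 320 * a') (y := 2 * a') ha3 (by linarith)
        (by linarith) (by nlinarith) (by linarith)
      have e1 : 80 * (1 - q) / η * (f η q a' / a') * (2 * a' - (2 * a' - η / 320 * a'))
          = (1 - q) / 4 * f η q a' := by field_simp; ring
      have b3 : HH η q (2 * a' - η / 320 * a') ≤ HH η q (a + t) := hmono (by nlinarith)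
      have b4 := f_mono P ha1
      have b5 := f_nonneg P a
      have b6 : (1 - q) / 4 * f η q a' ≤ (1 - q) * (1 - 2 * η) / 2 * f η q a := by
        have : (1 - q) / 4 ≤ (1 - q) * (1 - 2 * η) / 2 := by nlinarith
        exact mul_le_mul this b4 (f_nonneg P _) (by nlinarith)
      have b7 : (1 - q) * (1 - 2 * η) / 2 * f η q a ≤ HH η q (a + t) - HH η q a := by linarith
      have b8 := mul_le_mul_of_nonneg_left b7 (show 0 ≤ M by linarith)
      have e3 : M * ((1 - q) * (1 - 2 * η) / 2 * f η q a) = f η q a := by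
        have : M * ((1 - q) * (1 - 2 * η) / 2 * f η q a)
            = ((1 - q) * (1 - 2 * η) * M) / 2 * f η q a := by ring
        rw [this, hM]; ring
      have b9 : 0 ≤ HH η q (a - t) := hH0 ▸ hmono (by linarith)
      rw [HH_left P ha0.le hC.le] at *
      linarith

lemma HH_main' {M : ℝ} (hη : η ≤ 1 / 4) (hM : (1 - q) * (1 - 2 * η) * M = 2)
    (hM2 : 307200 / η ^ 3 ≤ M) (a : ℝ) {t : ℝ} (ht0 : 0 < t)
    (ht : t ≤ π) : HH η q a - HH η q (a - t) ≤ M * (HH η q (a + t) - HH η q a) := by
  obtain ⟨n, hn1, hn2⟩ := exists_red 0 a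
  have := HH_main P hη hM hM2 hn1 (by linarith) ht0 ht
  rw [show a - n * (2 * π) - t = (a - t) - n * (2 * π) by ring,
    show a - n * (2 * π) + t = (a + t) - n * (2 * π) by ring, HH_per, HH_per, HH_per] at this
  convert this using 1 <;> ring

lemma vv_mean : (∫ θ in (0 : ℝ)..(2 * π), vv η q θ) = 0 := by
  have h1 := (vv_per (η := η) (q := q)).intervalIntegral_add_eq 0 (-π)
  rw [zero_add, show -π + 2 * π = π by ring] at h1
  rw [h1]
  have h2 := intervalIntegral.integral_comp_neg (a := -π) (b := π) (vv η q)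
  simp_rw [vv_odd P] at h2
  rw [intervalIntegral.integral_neg, neg_neg] at h2
  linarith

theorem vv_isQS {M : ℝ} (hη : η ≤ 1 / 4) (hM : (1 - q) * (1 - 2 * η) * M = 2)
    (hM2 : 307200 / η ^ 3 ≤ M) : IsQS M (vv η q) := by
  refine ⟨vv_cont P, vv_per, HH_strictMono P, vv_mean P, fun x t ht0 ht => ⟨?_, ?_⟩⟩
  · have := HH_main' P hη hM hM2 (-x) ht0 ht
    rw [show -x - t = -(x + t) by ring, show -x + t = -(x - t) by ring, HH_odd P, HH_odd P,
      HH_odd P] at this
    unfold HH at this
    convert this using 1 <;> ring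
  · exact HH_main' P hη hM hM2 x ht0 ht

end

end Pool.Agent.MP_e5b4ec_an

end

section

open Real MeasureTheory Filter Topology Set

namespace Pool.Agent.MP_e5b4ec_an

lemma w_le_abs (x : ℝ) : w x ≤ |x| := by
  have := w_lip x 0
  simpa [w] using this

lemma w_summ : Summable (fun k : ℕ => w (2 * π / 3 / 2 ^ k)) := by
  refine Summable.of_nonneg_of_le (fun k => w_nonneg _) (fun k => w_le_abs _) ?_
  have : (fun k : ℕ => |2 * π / 3 / 2 ^ k|) = fun k : ℕ => (2 * π / 3) * (1 / 2) ^ k := by
    ext k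
    rw [abs_of_nonneg (by positivity), one_div_pow]; ring
  rw [this]
  exact (summable_geometric_of_lt_one (by norm_num) (by norm_num)).mul_left _

noncomputable def Winf : ℝ := ∑' k : ℕ, w (2 * π / 3 / 2 ^ k)

lemma W_le_Winf (J : ℕ) : W J (2 * π / 3) ≤ Winf :=
  w_summ.sum_le_tsum _ (fun _ _ => w_nonneg _)

lemma W_tendsto : Tendsto (fun J => W J (2 * π / 3)) atTop (𝓝 Winf) :=
  w_summ.hasSum.tendsto_sum_nat

lemma Winf_nonneg : 0 ≤ Winf := tsum_nonneg (fun _ => w_nonneg _)

lemma int_B {η : ℝ} (h1 : 0 < η) (h2 : η ≤ 1 / 2) (j : ℕ) :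
    ∫ θ in (0:ℝ)..π, (1 - B η (2 ^ j * θ)) * Real.sin θ
      ≤ w (2 * π / 3 / 2 ^ j) + 5 * η * (1 / 2) ^ j := by
  have hpi := Real.pi_gt_three
  have hpi4 := Real.pi_lt_four
  have hc : Continuous (fun θ : ℝ => (1 - B η (2 ^ j * θ)) * Real.sin θ) :=
    (continuous_const.sub (B_cont.comp (by fun_prop))).mul Real.continuous_sin
  have hp : (1:ℝ) ≤ 2 ^ j := one_le_pow₀ (by norm_num)
  set a := (2 * π / 3 + η) / 2 ^ j with ha
  set b := π / 2 ^ j with hb
  have ha0 : 0 ≤ a := by positivity
  have hab : a ≤ b := by rw [ha, hb]; gcongr; linarith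
  have hbπ : b ≤ π := div_le_self (by linarith) hp
  rw [← intervalIntegral.integral_add_adjacent_intervals (b := a) (hc.intervalIntegrable _ _)
    (hc.intervalIntegrable _ _),
    ← intervalIntegral.integral_add_adjacent_intervals (a := a) (b := b) (hc.intervalIntegrable _ _)
    (hc.intervalIntegrable _ _)]
  have i1 : ∫ θ in (0:ℝ)..a, (1 - B η (2 ^ j * θ)) * Real.sin θ ≤ ∫ θ in (0:ℝ)..a, Real.sin θ := by
    refine intervalIntegral.integral_mono_on ha0 (hc.intervalIntegrable _ _)
      (Real.continuous_sin.intervalIntegrable _ _) (fun θ hθ => ?_)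
    have := Real.sin_nonneg_of_nonneg_of_le_pi hθ.1 (by linarith [hθ.2])
    nlinarith [B_nonneg h1 h2 (2 ^ j * θ)]
  have i2 : ∫ θ in a..b, (1 - B η (2 ^ j * θ)) * Real.sin θ ≤ ∫ θ in a..b, η := by
    refine intervalIntegral.integral_mono_on hab (hc.intervalIntegrable _ _)
      (continuous_const.intervalIntegrable _ _) (fun θ hθ => ?_)
    have s0 := Real.sin_nonneg_of_nonneg_of_le_pi (ha0.trans hθ.1) (by linarith [hθ.2])
    have s1 := Real.sin_le_one θ
    have h3 : 2 * π / 3 + η ≤ 2 ^ j * θ := by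
      have := hθ.1
      rw [ha, div_le_iff₀ (by positivity)] at this
      linarith
    have h4 : 1 - B η (2 ^ j * θ) ≤ η := by
      unfold B
      rw [R_one h1 h3]
      nlinarith [K_nonneg (2 ^ j * θ)]
    nlinarith
  have i3 : ∫ θ in b..π, (1 - B η (2 ^ j * θ)) * Real.sin θ = 0 := by
    rw [intervalIntegral.integral_congr (g := fun _ => 0)]
    · simp
    · intro θ hθ
      rw [uIcc_of_le hbπ] at hθ
      have h3 : π ≤ 2 ^ j * θ := by
        have := hθ.1
        rw [hb, div_le_iff₀ (by positivity)] at this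
        linarith
      simp [B_one h1 h2 h3]
  rw [integral_sin, Real.cos_zero] at i1
  rw [intervalIntegral.integral_const, smul_eq_mul] at i2
  have i4 := w_lip a (2 * π / 3 / 2 ^ j)
  have e1 : a - 2 * π / 3 / 2 ^ j = η * (1 / 2) ^ j := by
    rw [ha, one_div_pow]; ring
  have e2 : b = π * (1 / 2) ^ j := by rw [hb, one_div_pow]; ring
  rw [e1, abs_of_nonneg (by positivity)] at i4
  have i5 : (b - a) * η ≤ 4 * η * (1 / 2) ^ j := by
    have : (0:ℝ) < (1 / 2) ^ j := by positivity
    have : b ≤ 4 * (1 / 2) ^ j := by rw [e2]; nlinarith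
    nlinarith
  unfold w at i4 ⊢
  linarith

lemma int_f {η q : ℝ} (P : Par η q) :
    ∫ θ in (0:ℝ)..π, (π - f η q θ) * Real.sin θ ≤ π * (1 - q) * (Winf + 10 * η) := by
  have hpi := Real.pi_pos
  have hc : Continuous (fun θ : ℝ => (π - f η q θ) * Real.sin θ) :=
    (continuous_const.sub (f_cont P)).mul Real.continuous_sin
  have hcB : ∀ j : ℕ, Continuous (fun θ : ℝ => (1 - B η (2 ^ j * θ)) * Real.sin θ) := fun j =>
    (continuous_const.sub (B_cont.comp (by fun_prop))).mul Real.continuous_sin
  have main : ∀ n : ℕ, ∫ θ in (0:ℝ)..π, (π - f η q θ) * Real.sin θ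
      ≤ π * (1 - q) * (Winf + 10 * η) + π * π * q ^ n := by
    intro n
    have hpt : ∀ θ ∈ Icc (0:ℝ) π, (π - f η q θ) * Real.sin θ ≤
        ∑ j ∈ Finset.range n, π * (1 - q) * ((1 - B η (2 ^ j * θ)) * Real.sin θ) + π * q ^ n := by
      intro θ hθ
      have s0 := Real.sin_nonneg_of_nonneg_of_le_pi hθ.1 hθ.2
      have s1 := Real.sin_le_one θ
      have e1 := f_iter P n θ
      have e2 : ∑ j ∈ Finset.range n, π * (1 - q) * q ^ j = π - π * q ^ n := by
        rw [← Finset.mul_sum]
        have := mul_neg_geom_sum q n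
        linear_combination π * this
      have e3 : π - f η q θ = ∑ j ∈ Finset.range n, π * (1 - q) * q ^ j * (1 - B η (2 ^ j * θ))
          + q ^ n * (π - f η q (2 ^ n * θ)) := by
        have : ∑ j ∈ Finset.range n, π * (1 - q) * q ^ j * (1 - B η (2 ^ j * θ)) =
            ∑ j ∈ Finset.range n, π * (1 - q) * q ^ j -
            ∑ j ∈ Finset.range n, π * (1 - q) * q ^ j * B η (2 ^ j * θ) := by
          rw [← Finset.sum_sub_distrib]
          exact Finset.sum_congr rfl (fun j _ => by ring)
        rw [this, e2]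
        linarith
      rw [e3, add_mul, Finset.sum_mul]
      refine add_le_add (Finset.sum_le_sum (fun j _ => ?_)) ?_
      · have a1 : q ^ j ≤ 1 := pow_le_one₀ P.q0.le P.h4.le
        have a2 : 0 ≤ π * (1 - q) * ((1 - B η (2 ^ j * θ)) * Real.sin θ) :=
          mul_nonneg P.c0.le (mul_nonneg (by linarith [B_le_one P.h1 P.h2 (2 ^ j * θ)]) s0)
        nlinarith
      · have a1 : 0 < q ^ n := pow_pos P.q0 n
        have a2 := f_nonneg P (2 ^ n * θ)
        have a3 := f_le_pi P (2 ^ n * θ)
        have a4 : (π - f η q (2 ^ n * θ)) * Real.sin θ ≤ π := by nlinarith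
        nlinarith
    have hcB' : ∀ j : ℕ, Continuous
        (fun θ : ℝ => π * (1 - q) * ((1 - B η (2 ^ j * θ)) * Real.sin θ)) := fun j =>
      continuous_const.mul (hcB j)
    have hcS : Continuous (fun θ : ℝ =>
        ∑ j ∈ Finset.range n, π * (1 - q) * ((1 - B η (2 ^ j * θ)) * Real.sin θ)) :=
      continuous_finsetSum _ (fun j _ => hcB' j)
    have hI := intervalIntegral.integral_mono_on (μ := volume) hpi.le (hc.intervalIntegrable _ _)
      (Continuous.intervalIntegrable (hcS.add continuous_const) _ _) hpt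
    refine hI.trans ?_
    simp only [Pi.add_apply]
    rw [intervalIntegral.integral_add (hcS.intervalIntegrable _ _)
        (continuous_const.intervalIntegrable _ _),
      intervalIntegral.integral_finsetSum (fun j _ => (hcB' j).intervalIntegrable _ _),
      intervalIntegral.integral_const, smul_eq_mul]
    simp_rw [intervalIntegral.integral_const_mul]
    rw [← Finset.mul_sum]
    have a1 : ∑ j ∈ Finset.range n, ∫ θ in (0:ℝ)..π, (1 - B η (2 ^ j * θ)) * Real.sin θ
        ≤ Winf + 10 * η := by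
      refine (Finset.sum_le_sum (fun j _ => int_B P.h1 P.h2 j)).trans ?_
      rw [Finset.sum_add_distrib, ← Finset.mul_sum]
      have b1 := W_le_Winf n
      have b2 := (summable_geometric_two).sum_le_tsum (Finset.range n) (fun i _ => by positivity)
      rw [tsum_geometric_two] at b2
      unfold W at b1
      nlinarith [P.h1]
    have a2 := mul_le_mul_of_nonneg_left a1 P.c0.le
    linarith
  have hlim : Tendsto (fun n : ℕ => π * (1 - q) * (Winf + 10 * η) + π * π * q ^ n) atTop
      (𝓝 (π * (1 - q) * (Winf + 10 * η) + π * π * 0)) :=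
    tendsto_const_nhds.add ((tendsto_pow_atTop_nhds_zero_of_lt_one P.q0.le P.h4).const_mul _)
  rw [mul_zero, add_zero] at hlim
  exact ge_of_tendsto' hlim main

lemma Z_vv {η q : ℝ} (P : Par η q) : 2 - 2 * (1 - q) * (Winf + 10 * η) ≤ ‖Z (vv η q)‖ := by
  refine le_trans ?_ (sin_le_norm_Z (vv_cont P))
  have hpi := Real.pi_pos
  have hf := f_cont P
  set g : ℝ → ℝ := fun θ => (π - f η q θ) * Real.sin θ with hg
  have hc : Continuous g := (continuous_const.sub hf).mul Real.continuous_sin
  have e1 : ∫ θ in (0:ℝ)..(2 * π), vv η q θ * Real.sin θ =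
      ∫ θ in (0:ℝ)..(2 * π), (-g θ - g (2 * π - θ) + (π * Real.sin θ - θ * Real.sin θ)) := by
    refine intervalIntegral.integral_congr (fun θ hθ => ?_)
    rw [uIcc_of_le (by positivity)] at hθ
    have := HH_eq P hθ.1 hθ.2
    unfold HH at this
    simp only [hg, Real.sin_two_pi_sub]
    have h2 : vv η q θ = f η q θ - f η q (2 * π - θ) + π - θ := by linarith
    rw [h2]; ring
  have e2 : ∫ θ in (0:ℝ)..(2 * π), g (2 * π - θ) = ∫ θ in (0:ℝ)..(2 * π), g θ := by
    rw [intervalIntegral.integral_comp_sub_left g]; simp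
  have e3 : ∫ θ in (0:ℝ)..(2 * π), g θ = ∫ θ in (0:ℝ)..π, g θ := by
    rw [← intervalIntegral.integral_add_adjacent_intervals (b := π) (hc.intervalIntegrable _ _)
      (hc.intervalIntegrable _ _)]
    have : ∫ θ in π..(2 * π), g θ = 0 := by
      rw [intervalIntegral.integral_congr (g := fun _ => 0)]
      · simp
      · intro θ hθ
        rw [uIcc_of_le (by linarith)] at hθ
        simp [hg, f_pi P hθ.1]
    rw [this, add_zero]
  have hc2 : Continuous (fun θ => g (2 * π - θ)) := by fun_prop
  have hc3 : Continuous (fun θ => -g θ) := hc.neg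
  have hc4 : Continuous (fun θ => -g θ - g (2 * π - θ)) := hc3.sub hc2
  rw [e1, intervalIntegral.integral_add (hc4.intervalIntegrable _ _)
      (Continuous.intervalIntegrable (by fun_prop) _ _),
    intervalIntegral.integral_sub (hc3.intervalIntegrable _ _) (hc2.intervalIntegrable _ _),
    intervalIntegral.integral_sub (Continuous.intervalIntegrable (by fun_prop) _ _)
      (Continuous.intervalIntegrable (by fun_prop) _ _), int_id_sin, intervalIntegral.integral_neg,
    e2, e3, intervalIntegral.integral_const_mul, integral_sin]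
  have h4 := int_f P
  simp only [Real.cos_zero, Real.cos_two_pi, sub_self, mul_zero]
  rw [one_div, inv_mul_eq_div, le_div_iff₀ hpi]
  nlinarith

lemma lower_large {ε : ℝ} (hε : 0 < ε) :
    ∀ᶠ M in atTop, ∃ v, IsQS M v ∧ M * (2 - ‖Z v‖) ≤ 4 * Winf + ε := by
  have hcont : ContinuousAt (fun η : ℝ => 4 * (Winf + 10 * η) / (1 - 2 * η)) 0 := by
    refine ContinuousAt.div (by fun_prop) (by fun_prop) (by norm_num)
  have hev : ∀ᶠ η in 𝓝 (0:ℝ), 4 * (Winf + 10 * η) / (1 - 2 * η) < 4 * Winf + ε :=
    hcont.eventually (gt_mem_nhds (by simp; linarith))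
  have hev2 : ∀ᶠ η in 𝓝 (0:ℝ), η < 1 / 4 := gt_mem_nhds (by norm_num)
  obtain ⟨η, ⟨h1, h2⟩, h3⟩ := (((hev.and hev2).filter_mono nhdsWithin_le_nhds).and
    (self_mem_nhdsWithin (s := Ioi (0:ℝ)))).exists
  have h3 : 0 < η := h3
  filter_upwards [eventually_ge_atTop (307200 / η ^ 3), eventually_ge_atTop 16] with M hM1 hM2
  have hd : 0 < 1 - 2 * η := by linarith
  set q := 1 - 2 / ((1 - 2 * η) * M) with hq
  have hpos : 0 < (1 - 2 * η) * M := by positivity
  have P : Par η q := by
    refine ⟨h3, by linarith, ?_, ?_⟩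
    · have : 2 / ((1 - 2 * η) * M) ≤ 1 / 4 := by
        rw [div_le_iff₀ hpos]; nlinarith
      linarith
    · have : 0 < 2 / ((1 - 2 * η) * M) := by positivity
      linarith
  have hM : (1 - q) * (1 - 2 * η) * M = 2 := by
    rw [hq]; field_simp; ring
  refine ⟨vv η q, vv_isQS P h2.le hM hM1, ?_⟩
  have h4 := Z_vv P
  have h5 : M * (2 * (1 - q) * (Winf + 10 * η)) = 4 * (Winf + 10 * η) / (1 - 2 * η) := by
    rw [eq_div_iff hd.ne']
    linear_combination (2 * (Winf + 10 * η)) * hM
  have h6 : M * (2 - ‖Z (vv η q)‖) ≤ M * (2 * (1 - q) * (Winf + 10 * η)) :=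
    mul_le_mul_of_nonneg_left (by linarith) (by linarith)
  linarith

lemma upper_large {ε : ℝ} (hε : 0 < ε) :
    ∀ᶠ M in atTop, ∀ v, IsQS M v → 4 * Winf - ε ≤ M * (2 - ‖Z v‖) := by
  have hpi := Real.pi_gt_three
  obtain ⟨J, hJ⟩ : ∃ J : ℕ, Winf - ε / 16 < W (J + 2) (2 * π / 3) := by
    have := (W_tendsto.comp (tendsto_add_atTop_nat 2)).eventually
      (lt_mem_nhds (show Winf - ε / 16 < Winf by linarith))
    exact this.exists
  set δ : ℝ := min (1 / (4 * 2 ^ J)) (ε / (32 * (J + 2))) with hδ
  have hδ0 : 0 < δ := lt_min (by positivity) (by positivity)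
  have hδ1 : 4 * δ * 2 ^ J ≤ 1 := by
    have : δ ≤ 1 / (4 * 2 ^ J) := min_le_left _ _
    rw [le_div_iff₀ (by positivity)] at this
    linarith
  have hδ2 : (J + 2) * (4 * δ) ≤ ε / 8 := by
    have : δ ≤ ε / (32 * (J + 2)) := min_le_right _ _
    rw [le_div_iff₀ (by positivity)] at this
    linarith
  have hδ3 : δ ≤ 1 := by
    have : (1:ℝ) ≤ 2 ^ J := one_le_pow₀ (by norm_num)
    nlinarith
  have hw : 0 < w δ := by
    unfold w
    have := Real.cos_lt_cos_of_nonneg_of_le_pi le_rfl (show δ ≤ π by linarith) hδ0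
    rw [Real.cos_zero] at this
    linarith
  have hW := Winf_nonneg
  filter_upwards [eventually_ge_atTop (16 * Winf ^ 2 / (w δ * ε)), eventually_gt_atTop 0]
    with M hM1 hM0
  intro v hv
  obtain ⟨H, hH, hZ⟩ := exists_lift hv
  obtain ⟨u1, u2⟩ := upper_core J hδ0 hδ1 hM0 hH
  set E := -(∫ θ in (0 : ℝ)..(2 * π), H θ * Real.sin θ) with hE
  set p := H δ - H (-δ) with hp
  have hZ' : 2 - ‖Z v‖ = E / π := by rw [hZ, hE]; ring
  rw [hZ']
  by_contra hcon
  push Not at hcon
  have hp2 : p ≤ 2 * π := by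
    have h1 := hH.per (-δ)
    have h2 : H δ ≤ H (-δ + 2 * π) := hH.mono.monotone (by linarith)
    linarith
  have hp0 : 0 ≤ p := sub_nonneg.mpr (hH.mono.monotone (by linarith))
  have hE0 : 0 ≤ E := le_trans (mul_nonneg hw.le (by linarith)) u1
  rw [← mul_div_assoc, div_lt_iff₀ (by linarith)] at hcon
  set A := 2 * W (J + 2) (2 * π / 3) - (J + 2) * (4 * δ) with hA
  have hA1 : 2 * Winf - ε / 4 ≤ A := by linarith
  have hA2 : A ≤ 2 * Winf := by
    have := W_le_Winf (J + 2)
    have : 0 ≤ ((J:ℝ) + 2) * (4 * δ) := by positivity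
    linarith
  have h1 : p * A ≤ M * E := by
    have := mul_le_mul_of_nonneg_left u2 hM0.le
    have e : M * (p / M * A) = p * A := by field_simp
    linarith
  -- (2π - p) * M * w δ ≤ M E ≤ 4 π Winf
  have h2 : M * (w δ * (2 * π - p)) ≤ 4 * Winf * π := by
    have := mul_le_mul_of_nonneg_left u1 hM0.le
    nlinarith
  have h3 : 16 * Winf ^ 2 ≤ M * (w δ * ε) := by rwa [div_le_iff₀ (by positivity)] at hM1
  have h4 : (2 * π - p) * (2 * Winf) ≤ π * ε / 2 := by
    have hMw : 0 < M * w δ := by positivity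
    refine le_of_mul_le_mul_left ?_ hMw
    nlinarith
  have h5 : (2 * π - p) * A ≤ (2 * π - p) * (2 * Winf) :=
    mul_le_mul_of_nonneg_left hA2 (by linarith)
  nlinarith

theorem tendsto_large : Tendsto (fun M : ℝ => M * (2 - c M)) atTop (𝓝 (4 * Winf)) := by
  rw [Metric.tendsto_nhds]
  intro ε hε
  filter_upwards [lower_large (half_pos hε), upper_large (half_pos hε), eventually_gt_atTop 0]
    with M h1 h2 hM
  obtain ⟨v, hv, hv2⟩ := h1
  rw [c_eq]
  set S := {a : ℝ | ∃ v, IsQS M v ∧ a = ‖Z v‖} with hS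
  have hub : ∀ a ∈ S, a ≤ 2 - (4 * Winf - ε / 2) / M := by
    rintro a ⟨u, hu, rfl⟩
    have := h2 u hu
    have : (4 * Winf - ε / 2) / M ≤ 2 - ‖Z u‖ := by rw [div_le_iff₀ hM]; linarith
    linarith
  have hmem : ‖Z v‖ ∈ S := ⟨v, hv, rfl⟩
  have a1 : sSup S ≤ 2 - (4 * Winf - ε / 2) / M := csSup_le ⟨_, hmem⟩ hub
  have a2 : ‖Z v‖ ≤ sSup S := le_csSup ⟨_, hub⟩ hmem
  have a3 : (4 * Winf - ε / 2) / M ≤ 2 - sSup S := by linarith
  rw [div_le_iff₀ hM] at a3
  have a4 : M * (2 - sSup S) ≤ M * (2 - ‖Z v‖) := mul_le_mul_of_nonneg_left (by linarith) hM.le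
  rw [Real.dist_eq, abs_lt]
  constructor <;> linarith

end Pool.Agent.MP_e5b4ec_an

end
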