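import Pool.Agent.MP_e5b4ec_an.Defs

section

open Real Complex Metric MeasureTheory Filter Topology Set

namespace Pool.Agent.MP_e5b4ec_an

/-- first Fourier coefficient -/
noncomputable def Z (v : ℝ → ℝ) : ℂ :=
  (1 / π : ℂ) * ∫ θ in (0 : ℝ)..(2 * π), (v θ : ℂ) * Complex.exp (-(θ * Complex.I))

/-- Schwarz integral -/
noncomputable def S (v : ℝ → ℝ) (z : ℂ) : ℂ :=
  (Complex.I / (2 * π)) * ∫ θ in (0 : ℝ)..(2 * π),
    (Complex.exp (θ * Complex.I) + z) / (Complex.exp (θ * Complex.I) - z) * (v θ : ℂ)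

lemma norm_e (θ : ℝ) : ‖Complex.exp (θ * Complex.I)‖ = 1 := Complex.norm_exp_ofReal_mul_I θ

lemma e_sub_ne {z : ℂ} (hz : ‖z‖ < 1) (θ : ℝ) : Complex.exp (θ * Complex.I) - z ≠ 0 := by
  intro h
  have : Complex.exp (θ * Complex.I) = z := sub_eq_zero.mp h
  rw [← this, norm_e] at hz
  exact lt_irrefl _ hz

lemma cont_ker {v : ℝ → ℝ} (hv : Continuous v) {z : ℂ} (hz : ‖z‖ < 1) :
    Continuous (fun θ : ℝ =>
      (Complex.exp (θ * Complex.I) + z) / (Complex.exp (θ * Complex.I) - z) * (v θ : ℂ)) := by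
  refine Continuous.mul (Continuous.div ?_ ?_ (fun θ => e_sub_ne hz θ)) ?_
  · fun_prop
  · fun_prop
  · exact Complex.continuous_ofReal.comp hv

lemma cont_ker' {v : ℝ → ℝ} (hv : Continuous v) {z : ℂ} (hz : ‖z‖ < 1) :
    Continuous (fun θ : ℝ =>
      (2 * Complex.exp (θ * Complex.I)) / (Complex.exp (θ * Complex.I) - z) ^ 2 * (v θ : ℂ)) := by
  refine Continuous.mul (Continuous.div ?_ ?_ (fun θ => pow_ne_zero 2 (e_sub_ne hz θ))) ?_
  · fun_prop
  · fun_prop
  · exact Complex.continuous_ofReal.comp hv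

lemma hasDerivAt_S {v : ℝ → ℝ} (hv : Continuous v) {z : ℂ} (hz : ‖z‖ < 1) :
    HasDerivAt (S v) ((Complex.I / (2 * π)) * ∫ θ in (0 : ℝ)..(2 * π),
      (2 * Complex.exp (θ * Complex.I)) / (Complex.exp (θ * Complex.I) - z) ^ 2 * (v θ : ℂ)) z := by
  unfold S
  refine HasDerivAt.const_mul _ ?_
  set r : ℝ := (1 - ‖z‖) / 2 with hr
  have hr0 : 0 < r := by rw [hr]; linarith
  have hball : ∀ x ∈ ball z r, ‖x‖ < 1 - r := by
    intro x hx
    rw [mem_ball, dist_eq_norm] at hx
    have : ‖x‖ ≤ ‖x - z‖ + ‖z‖ := by simpa using norm_add_le (x - z) z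
    rw [hr] at hx ⊢
    linarith
  have key := intervalIntegral.hasDerivAt_integral_of_dominated_loc_of_deriv_le
    (μ := volume) (a := (0:ℝ)) (b := 2 * π) (𝕜 := ℂ)
    (F := fun x θ => (Complex.exp (θ * Complex.I) + x) / (Complex.exp (θ * Complex.I) - x) * (v θ : ℂ))
    (F' := fun x θ => (2 * Complex.exp (θ * Complex.I)) / (Complex.exp (θ * Complex.I) - x) ^ 2 * (v θ : ℂ))
    (x₀ := z) (s := ball z r) (bound := fun θ => 2 / r ^ 2 * |v θ|)
    (ball_mem_nhds z hr0) ?_ ((cont_ker hv hz).intervalIntegrable _ _)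
    (cont_ker' hv hz).aestronglyMeasurable ?_ ?_ ?_
  · exact key.2
  · filter_upwards [ball_mem_nhds z hr0] with x hx
    exact (cont_ker hv (by linarith [hball x hx])).aestronglyMeasurable
  · refine ae_of_all _ (fun θ _ x hx => ?_)
    have h1 : r ≤ ‖Complex.exp (θ * Complex.I) - x‖ := by
      have := norm_sub_norm_le (Complex.exp (θ * Complex.I)) x
      rw [norm_e] at this
      linarith [hball x hx]
    rw [norm_mul, norm_div, norm_mul, norm_e, norm_pow, Complex.norm_real, Real.norm_eq_abs]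
    simp only [Complex.norm_ofNat, mul_one]
    gcongr
  · exact (Continuous.mul continuous_const hv.abs).intervalIntegrable _ _
  · refine ae_of_all _ (fun θ _ x hx => ?_)
    have hne := e_sub_ne (z := x) (by linarith [hball x hx]) θ
    refine HasDerivAt.mul_const ?_ _
    have h1 : HasDerivAt (fun y : ℂ => Complex.exp (θ * Complex.I) + y) 1 x :=
      (hasDerivAt_id x).const_add _
    have h2 : HasDerivAt (fun y : ℂ => Complex.exp (θ * Complex.I) - y) (-1) x :=
      (hasDerivAt_id x).const_sub _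
    have h3 := h1.fun_div h2 hne
    have h4 : (2 * Complex.exp (θ * Complex.I)) / (Complex.exp (θ * Complex.I) - x) ^ 2 =
        (1 * (Complex.exp (θ * Complex.I) - x) - (Complex.exp (θ * Complex.I) + x) * -1) /
          (Complex.exp (θ * Complex.I) - x) ^ 2 := by
      congr 1; ring
    rw [h4]
    exact h3

lemma S_diff {v : ℝ → ℝ} (hv : Continuous v) : DifferentiableOn ℂ (S v) (ball 0 1) := by
  intro z hz
  rw [mem_ball_zero_iff] at hz
  exact (hasDerivAt_S hv hz).differentiableAt.differentiableWithinAt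

lemma deriv_S_zero {v : ℝ → ℝ} (hv : Continuous v) :
    HasDerivAt (S v) (Complex.I * Z v) 0 := by
  have h := hasDerivAt_S hv (z := 0) (by simp)
  convert h using 1
  unfold Z
  have : ∀ θ : ℝ, (2 * Complex.exp (θ * Complex.I)) / (Complex.exp (θ * Complex.I) - 0) ^ 2 * (v θ : ℂ)
      = 2 * ((v θ : ℂ) * Complex.exp (-(θ * Complex.I))) := by
    intro θ
    rw [Complex.exp_neg]
    have := Complex.exp_ne_zero (θ * Complex.I)
    field_simp
    ring
  simp_rw [this]
  rw [intervalIntegral.integral_const_mul]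
  have : (π : ℂ) ≠ 0 := by exact_mod_cast Real.pi_ne_zero
  field_simp

lemma S_zero {v : ℝ → ℝ} (h0 : (∫ θ in (0 : ℝ)..(2 * π), v θ) = 0) : S v 0 = 0 := by
  unfold S
  have : ∀ θ : ℝ, (Complex.exp (θ * Complex.I) + 0) / (Complex.exp (θ * Complex.I) - 0) * (v θ : ℂ)
      = (v θ : ℂ) := by
    intro θ
    have := Complex.exp_ne_zero (θ * Complex.I)
    field_simp
    ring
  simp_rw [this]
  rw [intervalIntegral.integral_ofReal, h0]
  simp

lemma re_ker (z : ℂ) (θ : ℝ) :
    ((Complex.exp (θ * Complex.I) + z) / (Complex.exp (θ * Complex.I) - z)).re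
      = (1 - ‖z‖ ^ 2) / ‖Complex.exp (θ * Complex.I) - z‖ ^ 2 := by
  set e := Complex.exp (θ * Complex.I) with he
  have h1 : ‖e‖ = 1 := norm_e θ
  have h2 : e.re ^ 2 + e.im ^ 2 = 1 := by
    have := Complex.sq_norm e
    rw [h1, Complex.normSq_apply] at this
    nlinarith
  rw [Complex.div_re, ← add_div, Complex.sq_norm (e - z), Complex.sq_norm z, Complex.normSq_apply z]
  congr 1
  simp only [Complex.add_re, Complex.sub_re, Complex.add_im, Complex.sub_im]
  nlinarith

lemma S_im {v : ℝ → ℝ} (hv : Continuous v) {z : ℂ} (hz : ‖z‖ < 1) : (S v z).im = poisson v z := by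
  unfold S poisson
  have hI := (cont_ker hv hz).intervalIntegrable (μ := volume) (0:ℝ) (2 * π)
  have h1 : (∫ θ in (0 : ℝ)..(2 * π),
      (Complex.exp (θ * Complex.I) + z) / (Complex.exp (θ * Complex.I) - z) * (v θ : ℂ)).re
      = ∫ θ in (0 : ℝ)..(2 * π), (1 - ‖z‖ ^ 2) / ‖Complex.exp (θ * Complex.I) - z‖ ^ 2 * v θ := by
    have := (Complex.reCLM.intervalIntegral_comp_comm hI).symm
    simp only [Complex.reCLM_apply] at this
    rw [this]
    congr 1
    ext θ
    rw [Complex.re_mul_ofReal, re_ker z]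
  rw [← h1]
  have : Complex.I / (2 * π) = ((1 / (2 * π) : ℝ) : ℂ) * Complex.I := by
    push_cast; ring
  rw [this, mul_assoc, Complex.im_ofReal_mul]
  simp

lemma A2_eq {F q : ℂ → ℂ} (hq : DifferentiableOn ℂ q (ball 0 1)) (hq0 : q 0 = 0)
    (hF : ∀ z ∈ ball (0 : ℂ) 1, F z = z * Complex.exp (q z)) : A2 F = deriv q 0 := by
  have hb : ball (0:ℂ) 1 ∈ 𝓝 (0:ℂ) := ball_mem_nhds _ one_pos
  have han : AnalyticOnNhd ℂ q (ball 0 1) := hq.analyticOnNhd isOpen_ball
  have h1 : ∀ z ∈ ball (0:ℂ) 1, deriv F z = Complex.exp (q z) + z * (Complex.exp (q z) * deriv q z) := by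
    intro z hz
    have hev : F =ᶠ[𝓝 z] fun z => z * Complex.exp (q z) := by
      filter_upwards [isOpen_ball.mem_nhds hz] with w hw using hF w hw
    rw [hev.deriv_eq]
    have hd : HasDerivAt q (deriv q z) z := (han z hz).differentiableAt.hasDerivAt
    have := (hasDerivAt_id z).mul hd.cexp
    have h2 := this.deriv
    simp only [id, one_mul] at h2
    exact h2
  unfold A2
  rw [iteratedDeriv_succ, iteratedDeriv_one]
  have hev : deriv F =ᶠ[𝓝 0] fun z => Complex.exp (q z) + z * (Complex.exp (q z) * deriv q z) := by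
    filter_upwards [hb] with w hw using h1 w hw
  rw [hev.deriv_eq]
  have h0 : (0:ℂ) ∈ ball (0:ℂ) 1 := mem_ball_self one_pos
  have hd : HasDerivAt q (deriv q 0) 0 := (han 0 h0).differentiableAt.hasDerivAt
  have hd2 : HasDerivAt (deriv q) (deriv (deriv q) 0) 0 :=
    (han.deriv 0 h0).differentiableAt.hasDerivAt
  have := hd.cexp.add ((hasDerivAt_id (0:ℂ)).mul (hd.cexp.mul hd2))
  have h2 := this.deriv
  simp only [id, one_mul, zero_mul, add_zero, hq0, Complex.exp_zero, Pi.mul_apply] at h2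
  have h3 : (fun z => Complex.exp (q z) + z * (Complex.exp (q z) * deriv q z)) =
      ((fun x => Complex.exp (q x)) + (id * ((fun x => Complex.exp (q x)) * deriv q))) := by
    ext z; simp
  rw [h3, h2]
  ring

lemma norm_A2 {M : ℝ} {F : ℂ → ℂ} (hF : IsQSStarlike M F) :
    ∃ v, IsQS M v ∧ ‖A2 F‖ = ‖Z v‖ := by
  obtain ⟨v, q, hv, hq, hq0, him, hFq⟩ := hF
  refine ⟨v, hv, ?_⟩
  rw [A2_eq hq hq0 hFq]
  have hS := S_diff hv.1
  have han : AnalyticOnNhd ℂ (fun z => q z - S v z) (ball 0 1) :=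
    (hq.sub hS).analyticOnNhd isOpen_ball
  obtain ⟨k, hk⟩ := han.eq_const_of_im_eq_const (c₀ := 0) (by
    intro z hz
    rw [Complex.sub_im, him z hz, S_im hv.1 (mem_ball_zero_iff.mp hz), sub_self]) isOpen_ball
    ((convex_ball (0:ℂ) 1).isConnected ⟨0, mem_ball_self one_pos⟩)
  have hev : q =ᶠ[𝓝 0] fun z => S v z + k := by
    filter_upwards [ball_mem_nhds (0:ℂ) one_pos] with w hw
    have := hk w hw
    linear_combination this
  rw [hev.deriv_eq, ((deriv_S_zero hv.1).add_const k).deriv, norm_mul, Complex.norm_I, one_mul]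

lemma exists_F {M : ℝ} {v : ℝ → ℝ} (hv : IsQS M v) :
    ∃ F, IsQSStarlike M F ∧ ‖Z v‖ = ‖A2 F‖ := by
  refine ⟨fun z => z * Complex.exp (S v z), ⟨v, S v, hv, S_diff hv.1, S_zero hv.2.2.2.1,
    fun z hz => S_im hv.1 (mem_ball_zero_iff.mp hz), fun z _ => rfl⟩, ?_⟩
  rw [A2_eq (S_diff hv.1) (S_zero hv.2.2.2.1) (fun z _ => rfl), (deriv_S_zero hv.1).deriv,
    norm_mul, Complex.norm_I, one_mul]

theorem c_eq (M : ℝ) : c M = sSup {a : ℝ | ∃ v, IsQS M v ∧ a = ‖Z v‖} := by
  unfold c
  congr 1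
  ext a
  constructor
  · rintro ⟨F, hF, rfl⟩
    exact norm_A2 hF
  · rintro ⟨v, hv, rfl⟩
    exact exists_F hv

end Pool.Agent.MP_e5b4ec_an

end

section

open Real MeasureTheory Filter Topology Set

namespace Pool.Agent.MP_e5b4ec_an

lemma Z_im {v : ℝ → ℝ} (hv : Continuous v) :
    (Z v).im = -((1 / π) * ∫ θ in (0 : ℝ)..(2 * π), v θ * Real.sin θ) := by
  unfold Z
  have hc : Continuous (fun θ : ℝ => (v θ : ℂ) * Complex.exp (-(θ * Complex.I))) := by
    have := Complex.continuous_ofReal.comp hv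
    fun_prop
  have hI := hc.intervalIntegrable (μ := volume) (0:ℝ) (2 * π)
  have h1 := (Complex.imCLM.intervalIntegral_comp_comm hI).symm
  simp only [Complex.imCLM_apply] at h1
  have : (1 / π : ℂ) = ((1 / π : ℝ) : ℂ) := by push_cast; ring
  rw [this, Complex.im_ofReal_mul, h1, ← mul_neg, ← intervalIntegral.integral_neg]
  congr 2
  ext θ
  rw [Complex.im_ofReal_mul]
  have : -((θ:ℂ) * Complex.I) = ((-θ : ℝ) : ℂ) * Complex.I := by push_cast; ring
  rw [this, Complex.exp_ofReal_mul_I_im, Real.sin_neg]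
  ring

lemma sin_le_norm_Z {v : ℝ → ℝ} (hv : Continuous v) :
    (1 / π) * ∫ θ in (0 : ℝ)..(2 * π), v θ * Real.sin θ ≤ ‖Z v‖ := by
  have h := Complex.abs_im_le_norm (Z v)
  rw [Z_im hv, abs_neg] at h
  exact (le_abs_self _).trans h

lemma Z_shift {v : ℝ → ℝ} (hp : Function.Periodic v (2 * π)) (a : ℝ) :
    Z (fun θ => v (θ + a)) = Complex.exp (a * Complex.I) * Z v := by
  unfold Z
  set g : ℝ → ℂ := fun θ => (v θ : ℂ) * Complex.exp (-(θ * Complex.I)) with hg
  have hgp : Function.Periodic g (2 * π) := by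
    intro θ
    simp only [hg, hp θ]
    congr 1
    have : -(((θ + 2 * π : ℝ) : ℂ) * Complex.I) = -(θ * Complex.I) - 2 * π * Complex.I := by
      push_cast; ring
    rw [this, Complex.exp_sub, Complex.exp_two_pi_mul_I, div_one]
  have h1 : ∀ θ : ℝ, (v (θ + a) : ℂ) * Complex.exp (-(θ * Complex.I))
      = Complex.exp (a * Complex.I) * g (θ + a) := by
    intro θ
    simp only [hg]
    have : -((θ : ℂ) * Complex.I) = a * Complex.I + -(((θ + a : ℝ) : ℂ) * Complex.I) := by
      push_cast; ring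
    rw [this, Complex.exp_add]
    ring
  simp_rw [h1]
  rw [intervalIntegral.integral_const_mul, intervalIntegral.integral_comp_add_right g a]
  have h2 := hgp.intervalIntegral_add_eq (0 + a) 0
  have h3 : 0 + a + 2 * π = 2 * π + a := by ring
  rw [h3, zero_add (2 * π)] at h2
  rw [h2]
  ring

lemma exists_rot {v : ℝ → ℝ} (hv : Continuous v) (hp : Function.Periodic v (2 * π)) :
    ∃ a : ℝ, ‖Z v‖ = (1 / π) * ∫ θ in (0 : ℝ)..(2 * π), v (θ + a) * Real.sin θ := by
  refine ⟨-(Complex.arg (Z v)) - π / 2, ?_⟩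
  have hc : Continuous (fun θ => v (θ + (-(Complex.arg (Z v)) - π / 2))) := by fun_prop
  have h := Z_im hc
  rw [Z_shift hp] at h
  have h2 : Complex.exp (((-(Complex.arg (Z v)) - π / 2 : ℝ) : ℂ) * Complex.I) * Z v
      = (‖Z v‖ : ℂ) * Complex.exp (((-(π / 2) : ℝ) : ℂ) * Complex.I) := by
    have h3 := Complex.norm_mul_exp_arg_mul_I (Z v)
    have : ((-(π / 2) : ℝ) : ℂ) * Complex.I =
        ((-(Complex.arg (Z v)) - π / 2 : ℝ) : ℂ) * Complex.I + (Complex.arg (Z v)) * Complex.I := by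
      push_cast; ring
    rw [this, Complex.exp_add]
    linear_combination (-Complex.exp (((-(Complex.arg (Z v)) - π / 2 : ℝ) : ℂ) * Complex.I)) * h3
  rw [h2, Complex.im_ofReal_mul, Complex.exp_ofReal_mul_I_im, Real.sin_neg, Real.sin_pi_div_two] at h
  linarith

/-- lifts -/
structure IsLift (M : ℝ) (H : ℝ → ℝ) : Prop where
  cont : Continuous H
  mono : StrictMono H
  per : ∀ x, H (x + 2 * π) = H x + 2 * π
  qs1 : ∀ x t, 0 < t → t ≤ π → H (x + t) - H x ≤ M * (H x - H (x - t))
  qs2 : ∀ x t, 0 < t → t ≤ π → H x - H (x - t) ≤ M * (H (x + t) - H x)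

lemma int_id_sin : ∫ θ in (0 : ℝ)..(2 * π), θ * Real.sin θ = -(2 * π) := by
  have h : ∀ x ∈ uIcc (0:ℝ) (2 * π),
      HasDerivAt (fun x => Real.sin x - x * Real.cos x) (x * Real.sin x) x := by
    intro x _
    have := (Real.hasDerivAt_sin x).fun_sub ((hasDerivAt_id' x).fun_mul (Real.hasDerivAt_cos x))
    have h2 : Real.cos x - (1 * Real.cos x + x * -Real.sin x) = x * Real.sin x := by ring
    rw [h2] at this
    exact this
  rw [intervalIntegral.integral_eq_sub_of_hasDerivAt h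
    ((by fun_prop : Continuous fun x : ℝ => x * Real.sin x).intervalIntegrable _ _)]
  simp

lemma exists_lift {M : ℝ} {v : ℝ → ℝ} (hv : IsQS M v) :
    ∃ H, IsLift M H ∧ ‖Z v‖ = 2 + (1 / π) * ∫ θ in (0 : ℝ)..(2 * π), H θ * Real.sin θ := by
  obtain ⟨hc, hp, hm, -, hq⟩ := hv
  obtain ⟨a, ha⟩ := exists_rot hc hp
  refine ⟨fun θ => θ + v (θ + a), ⟨by fun_prop, ?_, ?_, ?_, ?_⟩, ?_⟩
  · intro x y hxy
    have := hm (show x + a < y + a by linarith)
    simp only at this ⊢
    linarith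
  · intro x
    have := hp (x + a)
    have h2 : x + 2 * π + a = x + a + 2 * π := by ring
    rw [h2, this]; ring
  · intro x t ht htp
    have := (hq (x + a) t ht htp).1
    have h2 : x + t + a = x + a + t := by ring
    have h3 : x - t + a = x + a - t := by ring
    rw [h2, h3]
    convert this using 1 <;> ring
  · intro x t ht htp
    have := (hq (x + a) t ht htp).2
    have h2 : x + t + a = x + a + t := by ring
    have h3 : x - t + a = x + a - t := by ring
    rw [h2, h3]
    convert this using 1 <;> ring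
  · rw [ha]
    have h1 : ∀ θ, (θ + v (θ + a)) * Real.sin θ = θ * Real.sin θ + v (θ + a) * Real.sin θ := by
      intro θ; ring
    simp_rw [h1]
    rw [intervalIntegral.integral_add
      ((by fun_prop : Continuous fun x : ℝ => x * Real.sin x).intervalIntegrable _ _)
      ((by fun_prop : Continuous fun x : ℝ => v (x + a) * Real.sin x).intervalIntegrable _ _),
      int_id_sin]
    have := Real.pi_ne_zero
    field_simp
    ring

end Pool.Agent.MP_e5b4ec_an

end

section

open Real MeasureTheory Filter Topology Set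

namespace Pool.Agent.MP_e5b4ec_an

noncomputable def w (x : ℝ) : ℝ := 1 - Real.cos x

lemma w_nonneg (x : ℝ) : 0 ≤ w x := by unfold w; linarith [Real.cos_le_one x]

lemma w_cont : Continuous w := by unfold w; fun_prop

lemma w_mono {x y : ℝ} (hx : 0 ≤ x) (hxy : x ≤ y) (hy : y ≤ π) : w x ≤ w y := by
  unfold w
  have := Real.cos_le_cos_of_nonneg_of_le_pi hx hy hxy
  linarith

lemma w_lip (x y : ℝ) : w x ≤ w y + |x - y| := by
  unfold w
  have := Real.abs_cos_sub_cos_le y x
  rw [abs_sub_comm y x] at this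
  linarith [le_abs_self (Real.cos y - Real.cos x)]

lemma w_refl (x : ℝ) : w (2 * π - x) = w x := by
  unfold w; rw [Real.cos_two_pi_sub]

lemma w_near {x y d : ℝ} (hd : 0 ≤ d) (hy0 : 0 ≤ y) (hx : x ≤ π) (h : y - d ≤ x) :
    w y - d ≤ w x := by
  rcases le_total y x with h1 | h1
  · linarith [w_mono hy0 h1 hx]
  · have := w_lip y x
    rw [abs_of_nonneg (by linarith)] at this
    linarith

lemma IsLift.surj {M : ℝ} {H : ℝ → ℝ} (h : IsLift M H) : Function.Surjective H := by
  have hn : ∀ n : ℕ, H (n * (2 * π)) = H 0 + n * (2 * π) := by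
    intro n
    induction n with
    | zero => simp
    | succ n ih =>
      have : ((n + 1 : ℕ) : ℝ) * (2 * π) = n * (2 * π) + 2 * π := by push_cast; ring
      rw [this, h.per, ih]; ring
  have hn' : ∀ n : ℕ, H (-(n * (2 * π))) = H 0 - n * (2 * π) := by
    intro n
    induction n with
    | zero => simp
    | succ n ih =>
      have h1 := h.per (-(((n + 1 : ℕ) : ℝ) * (2 * π)))
      have : -(((n + 1 : ℕ) : ℝ) * (2 * π)) + 2 * π = -(n * (2 * π)) := by push_cast; ring
      rw [this, ih] at h1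
      push_cast at h1 ⊢
      linarith
  intro u
  obtain ⟨n, hn1⟩ := exists_nat_ge (|u - H 0|)
  have hp : (n : ℝ) ≤ n * (2 * π) := by
    have : (0:ℝ) ≤ n := Nat.cast_nonneg n
    nlinarith [Real.pi_gt_three]
  have h1 : H (-(n * (2 * π))) ≤ u := by
    rw [hn']; linarith [neg_abs_le (u - H 0)]
  have h2 : u ≤ H (n * (2 * π)) := by
    rw [hn]; linarith [le_abs_self (u - H 0)]
  exact mem_range_of_exists_le_of_exists_ge h.cont ⟨_, h1⟩ ⟨_, h2⟩

/-- quantile identity -/
lemma quantile {H G : ℝ → ℝ} (hc : Continuous H)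
    (hGH : ∀ x u, u < H x ↔ G u < x) (hGH' : ∀ x u, H x ≤ u ↔ x ≤ G u)
    (hm : Monotone H) (hper : H (2 * π) = H 0 + 2 * π) :
    -(∫ θ in (0 : ℝ)..(2 * π), H θ * Real.sin θ) = ∫ u in (H 0)..(H 0 + 2 * π), w (G u) := by
  have h2pi : (0:ℝ) ≤ 2 * π := by positivity
  set μ : Measure ℝ := volume.restrict (Ioc 0 (2 * π)) with hμ
  set ν : Measure ℝ := volume.restrict (Ioo (H 0) (H 0 + 2 * π)) with hν
  set f : ℝ → ℝ → ℝ := fun θ u => if u < H θ then Real.sin θ else 0 with hf
  have hmeas : Measurable (Function.uncurry f) := by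
    refine Measurable.ite ?_ (by fun_prop) measurable_const
    exact measurableSet_lt measurable_snd (hc.measurable.comp measurable_fst)
  have hint : Integrable (Function.uncurry f) (μ.prod ν) := by
    refine Integrable.of_bound (C := 1) hmeas.aestronglyMeasurable (ae_of_all _ ?_)
    rintro ⟨θ, u⟩
    simp only [Function.uncurry, hf]
    split_ifs
    · exact Real.abs_sin_le_one θ
    · simp
  have hswap := integral_integral_swap hint
  have hL : ∫ θ, ∫ u, f θ u ∂ν ∂μ = ∫ θ in (0 : ℝ)..(2 * π), H θ * Real.sin θ := by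
    have e1 : ∫ θ in (0 : ℝ)..(2 * π), H θ * Real.sin θ
        = ∫ θ in (0 : ℝ)..(2 * π), (H θ - H 0) * Real.sin θ := by
      have : ∀ θ, (H θ - H 0) * Real.sin θ = H θ * Real.sin θ - H 0 * Real.sin θ := by
        intro θ; ring
      simp_rw [this]
      rw [intervalIntegral.integral_sub
        ((by fun_prop : Continuous fun x : ℝ => H x * Real.sin x).intervalIntegrable _ _)
        ((by fun_prop : Continuous fun x : ℝ => H 0 * Real.sin x).intervalIntegrable _ _),
        intervalIntegral.integral_const_mul]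
      simp
    rw [e1, intervalIntegral.integral_of_le h2pi]
    refine setIntegral_congr_fun measurableSet_Ioc (fun θ hθ => ?_)
    have h1 : H 0 ≤ H θ := hm hθ.1.le
    have h2 : H θ ≤ H 0 + 2 * π := hper ▸ hm hθ.2
    have : (fun u => f θ u) = (Iio (H θ)).indicator (fun _ => Real.sin θ) := by
      ext u; simp [hf, indicator]
    change ∫ u, f θ u ∂ν = _
    rw [this, integral_indicator measurableSet_Iio, hν, Measure.restrict_restrict measurableSet_Iio]
    have : Iio (H θ) ∩ Ioo (H 0) (H 0 + 2 * π) = Ioo (H 0) (H θ) := by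
      ext u
      simp only [mem_inter_iff, mem_Iio, mem_Ioo]
      constructor
      · rintro ⟨a, b, _⟩; exact ⟨b, a⟩
      · rintro ⟨a, b⟩; exact ⟨b, a, by linarith⟩
    rw [this, setIntegral_const, Real.volume_real_Ioo_of_le h1, smul_eq_mul]
  have hR : ∫ u, ∫ θ, f θ u ∂μ ∂ν = -∫ u in (H 0)..(H 0 + 2 * π), w (G u) := by
    rw [intervalIntegral.integral_of_le (by linarith), integral_Ioc_eq_integral_Ioo,
      ← integral_neg]
    refine setIntegral_congr_fun measurableSet_Ioo (fun u hu => ?_)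
    have h1 : 0 ≤ G u := (hGH' 0 u).mp hu.1.le
    have h2 : G u < 2 * π := (hGH _ u).mp (hper ▸ hu.2)
    have : (fun θ => f θ u) = (Ioi (G u)).indicator (fun θ => Real.sin θ) := by
      ext θ; simp [hf, indicator, hGH]
    change ∫ θ, f θ u ∂μ = _
    rw [this, integral_indicator measurableSet_Ioi, hμ, Measure.restrict_restrict measurableSet_Ioi]
    have : Ioi (G u) ∩ Ioc 0 (2 * π) = Ioc (G u) (2 * π) := by
      ext θ
      simp only [mem_inter_iff, mem_Ioi, mem_Ioc]
      constructor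
      · rintro ⟨a, _, b⟩; exact ⟨a, b⟩
      · rintro ⟨a, b⟩; exact ⟨a, by linarith, b⟩
    rw [this, ← intervalIntegral.integral_of_le h2.le, integral_sin]
    simp [w]
  rw [← hL, hswap, hR, neg_neg]

noncomputable def W (J : ℕ) (t : ℝ) : ℝ := ∑ j ∈ Finset.range J, w (t / 2 ^ j)

lemma W_mono (J : ℕ) {x y : ℝ} (hx : 0 ≤ x) (hxy : x ≤ y) (hy : y ≤ π) : W J x ≤ W J y := by
  refine Finset.sum_le_sum (fun j _ => w_mono (by positivity) (by gcongr) ?_)
  have : (1:ℝ) ≤ 2 ^ j := one_le_pow₀ (by norm_num)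
  calc y / 2 ^ j ≤ y := div_le_self (by linarith) this
    _ ≤ π := hy

lemma w_diff_le {x y : ℝ} (hx : 0 ≤ x) (hxy : x ≤ y) : w y - w x ≤ y * (y - x) := by
  unfold w
  have h := Real.cos_sub_cos x y
  have h1 : Real.sin ((x + y) / 2) ≤ y := (Real.sin_le (by linarith)).trans (by linarith)
  have h2 : Real.sin ((y - x) / 2) ≤ (y - x) / 2 := Real.sin_le (by linarith)
  have h3 : Real.sin ((x - y) / 2) = -Real.sin ((y - x) / 2) := by
    rw [← Real.sin_neg]; congr 1; ring
  rw [h3] at h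
  have h4 : |Real.sin ((x + y) / 2)| ≤ y := by
    have := Real.abs_sin_le_abs (x := (x + y) / 2)
    rw [abs_of_nonneg (by linarith : 0 ≤ (x + y) / 2)] at this
    linarith
  have h5 : |Real.sin ((y - x) / 2)| ≤ (y - x) / 2 := by
    have := Real.abs_sin_le_abs (x := (y - x) / 2)
    rwa [abs_of_nonneg (by linarith : 0 ≤ (y - x) / 2)] at this
  have h6 : Real.sin ((x + y) / 2) * Real.sin ((y - x) / 2) ≤ y * ((y - x) / 2) := by
    refine (le_abs_self _).trans ?_
    rw [abs_mul]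
    exact mul_le_mul h4 h5 (abs_nonneg _) (by linarith)
  linarith

lemma w_top {t : ℝ} (h1 : 2 * π / 3 ≤ t) (h2 : t ≤ π) :
    (t - 2 * π / 3) * (3 / (2 * π)) ≤ w t - w (2 * π / 3) := by
  -- concavity of cos on [0, π/2], applied to π - t
  have hpi := Real.pi_pos
  have hcon := (strictConcaveOn_cos_Icc.concaveOn).2
    (show (0:ℝ) ∈ Icc (-(π / 2)) (π / 2) from ⟨by linarith, by linarith⟩)
    (show π / 3 ∈ Icc (-(π / 2)) (π / 2) from ⟨by linarith, by linarith⟩)
    (show 0 ≤ (t - 2 * π / 3) * (3 / π) by positivity)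
    (show 0 ≤ (π - t) * (3 / π) by
      have : 0 ≤ π - t := by linarith
      positivity)
    (by field_simp; ring)
  simp only [smul_eq_mul, mul_zero, zero_add, Real.cos_zero, mul_one, Real.cos_pi_div_three] at hcon
  have e1 : (π - t) * (3 / π) * (π / 3) = π - t := by field_simp
  rw [e1, Real.cos_pi_sub] at hcon
  have e2 : Real.cos (2 * π / 3) = -(1 / 2) := by
    have : 2 * π / 3 = π - π / 3 := by ring
    rw [this, Real.cos_pi_sub, Real.cos_pi_div_three]
  unfold w
  rw [e2]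
  have e3 : (t - 2 * π / 3) * (3 / π) + (π - t) * (3 / π) * (1 / 2)
      = (t - 2 * π / 3) * (3 / (2 * π)) + 1 / 2 := by field_simp; ring
  linarith

lemma W_edge (J : ℕ) {t : ℝ} (h1 : 2 * π / 3 ≤ t) (h2 : t ≤ π) :
    2 * W (J + 2) (2 * π / 3) ≤ W (J + 2) t + W (J + 2) (π - t / 2) := by
  have hpi := Real.pi_pos
  set t0 := 2 * π / 3 with ht0
  have hA : W (J + 2) t = w t + w (t / 2) + ∑ j ∈ Finset.range J, w (t / 2 ^ (j + 2)) := by
    unfold W
    rw [Finset.sum_range_succ', Finset.sum_range_succ']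
    simp; ring
  have hA0 : W (J + 2) t0 = w t0 + w (t0 / 2) + ∑ j ∈ Finset.range J, w (t0 / 2 ^ (j + 2)) := by
    unfold W
    rw [Finset.sum_range_succ', Finset.sum_range_succ']
    simp; ring
  have hB : W (J + 2) (π - t / 2) = w (π - t / 2) +
      ∑ j ∈ Finset.range (J + 1), w ((π - t / 2) / 2 ^ (j + 1)) := by
    unfold W
    rw [Finset.sum_range_succ']
    simp; ring
  have hB0 : W (J + 2) t0 = w t0 + ∑ j ∈ Finset.range (J + 1), w (t0 / 2 ^ (j + 1)) := by
    unfold W
    rw [Finset.sum_range_succ']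
    simp; ring
  have e1 : w (π - t / 2) + w (t / 2) = 2 := by unfold w; rw [Real.cos_pi_sub]; ring
  have e2 : w t0 + w (t0 / 2) = 2 := by
    unfold w
    have : t0 = π - t0 / 2 := by rw [ht0]; ring
    conv_lhs => rw [this, Real.cos_pi_sub, ← this]
    ring
  have s1 : ∑ j ∈ Finset.range J, w (t0 / 2 ^ (j + 2)) ≤ ∑ j ∈ Finset.range J, w (t / 2 ^ (j + 2)) := by
    refine Finset.sum_le_sum (fun j _ => w_mono (by positivity) (by gcongr) ?_)
    have : (1:ℝ) ≤ 2 ^ (j + 2) := one_le_pow₀ (by norm_num)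
    calc t / 2 ^ (j + 2) ≤ t := div_le_self (by linarith) this
      _ ≤ π := h2
  have s2 : ∑ j ∈ Finset.range (J + 1), w (t0 / 2 ^ (j + 1)) ≤
      ∑ j ∈ Finset.range (J + 1), w ((π - t / 2) / 2 ^ (j + 1))
        + ∑ j ∈ Finset.range (J + 1), (t0 * ((t - t0) / 2) / 4) * (1 / 4) ^ j := by
    rw [← Finset.sum_add_distrib]
    refine Finset.sum_le_sum (fun j _ => ?_)
    have hx : 0 ≤ (π - t / 2) / 2 ^ (j + 1) := by
      have : 0 ≤ π - t / 2 := by linarith
      positivity
    have hxy : (π - t / 2) / 2 ^ (j + 1) ≤ t0 / 2 ^ (j + 1) := by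
      gcongr; rw [ht0]; linarith
    have := w_diff_le hx hxy
    have e : t0 / 2 ^ (j + 1) * (t0 / 2 ^ (j + 1) - (π - t / 2) / 2 ^ (j + 1))
        = (t0 * ((t - t0) / 2) / 4) * (1 / 4) ^ j := by
      have h4 : ((1:ℝ) / 4) ^ j = 1 / (2 ^ j * 2 ^ j) := by
        rw [← mul_pow, one_div_pow]; norm_num
      have hπ : π = 3 * t0 / 2 := by rw [ht0]; ring
      rw [h4, hπ]
      field_simp
      ring
    linarith
  have s3 : ∑ j ∈ Finset.range (J + 1), (t0 * ((t - t0) / 2) / 4) * (1 / 4) ^ j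
      ≤ (t0 * ((t - t0) / 2) / 4) * (4 / 3) := by
    rw [← Finset.mul_sum]
    have hnn : 0 ≤ t0 * ((t - t0) / 2) / 4 := by
      have : 0 ≤ t - t0 := by linarith
      positivity
    refine mul_le_mul_of_nonneg_left ?_ hnn
    have := (summable_geometric_of_lt_one (by norm_num : (0:ℝ) ≤ 1 / 4) (by norm_num)).sum_le_tsum
      (Finset.range (J + 1)) (fun i _ => by positivity)
    rw [tsum_geometric_of_lt_one (by norm_num) (by norm_num)] at this
    norm_num at this ⊢
    exact this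
  have s4 := w_top h1 h2
  rw [← ht0] at s4
  have s5 : (t0 * ((t - t0) / 2) / 4) * (4 / 3) ≤ (t - t0) * (3 / (2 * π)) := by
    have h3 : 0 ≤ t - t0 := by linarith
    have : t0 / 6 ≤ 3 / (2 * π) := by
      rw [ht0, le_div_iff₀ (by positivity)]
      nlinarith [Real.pi_lt_d2]
    nlinarith
  linarith

lemma W_pair (J : ℕ) {t s : ℝ} (ht : t ≤ π) (hs : s ≤ π) (h1 : 2 * π - s ≤ 2 * t)
    (h2 : 2 * π - t ≤ 2 * s) : 2 * W (J + 2) (2 * π / 3) ≤ W (J + 2) t + W (J + 2) s := by
  have hpi := Real.pi_pos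
  rcases le_total s t with h | h
  · have := W_edge J (t := t) (by linarith) ht
    have := W_mono (J + 2) (x := π - t / 2) (y := s) (by linarith) (by linarith) hs
    linarith
  · have := W_edge J (t := s) (by linarith) hs
    have := W_mono (J + 2) (x := π - s / 2) (y := t) (by linarith) (by linarith) ht
    linarith

lemma chain (J : ℕ) {δ : ℝ} (hδ : 0 < δ) (p : ℕ → ℝ)
    (hstep : ∀ j, 3 * δ ≤ p j → (p j - δ) / 2 ≤ p (j + 1)) (h0 : 4 * δ * 2 ^ J ≤ p 0) :
    ∀ j ≤ J + 1, p 0 / 2 ^ j - δ ≤ p j := by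
  intro j
  induction j with
  | zero => intro _; simp; linarith
  | succ j ih =>
    intro hj
    have ih := ih (by omega)
    have h2 : (2:ℝ) ^ j ≤ 2 ^ J := pow_le_pow_right₀ (by norm_num) (by omega)
    have h3 : 4 * δ ≤ p 0 / 2 ^ j := by
      rw [le_div_iff₀ (by positivity)]
      nlinarith
    have := hstep j (by linarith)
    have e : p 0 / 2 ^ (j + 1) = p 0 / 2 ^ j / 2 := by rw [pow_succ, div_div]
    linarith

lemma chain_sum (J : ℕ) {δ : ℝ} (hδ : 0 < δ) (p : ℕ → ℝ) (hp : ∀ j, p j ≤ π)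
    (hstep : ∀ j, 3 * δ ≤ p j → (p j - δ) / 2 ≤ p (j + 1)) (h0 : 4 * δ * 2 ^ J ≤ p 0) :
    W (J + 2) (min π (p 0 + δ)) - (J + 2) * (2 * δ) ≤ ∑ j ∈ Finset.range (J + 2), w (p j) := by
  have hp0 : 0 ≤ p 0 := le_trans (by positivity) h0
  have : ((J:ℝ) + 2) * (2 * δ) = ∑ j ∈ Finset.range (J + 2), 2 * δ := by simp
  rw [this, W, ← Finset.sum_sub_distrib]
  refine Finset.sum_le_sum (fun j hj => ?_)
  have hj : j ≤ J + 1 := by simp at hj; omega
  have h1 := chain J hδ p hstep h0 j hj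
  have hm : 0 ≤ min π (p 0 + δ) := le_min Real.pi_pos.le (by linarith)
  refine w_near (by linarith) (by positivity) (hp j) ?_
  have h2 : (1:ℝ) ≤ 2 ^ j := one_le_pow₀ (by norm_num)
  have h3 : min π (p 0 + δ) / 2 ^ j ≤ (p 0 + δ) / 2 ^ j := by
    gcongr; exact min_le_right _ _
  have h4 : δ / 2 ^ j ≤ δ := div_le_self hδ.le h2
  rw [add_div] at h3
  linarith

lemma upper_core (J : ℕ) {δ M : ℝ} (hδ : 0 < δ) (hδJ : 4 * δ * 2 ^ J ≤ 1) (hM : 0 < M)
    {H : ℝ → ℝ} (h : IsLift M H) :
    w δ * (2 * π - (H δ - H (-δ))) ≤ -(∫ θ in (0 : ℝ)..(2 * π), H θ * Real.sin θ) ∧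
    (H δ - H (-δ)) / M * (2 * W (J + 2) (2 * π / 3) - (J + 2) * (4 * δ))
      ≤ -(∫ θ in (0 : ℝ)..(2 * π), H θ * Real.sin θ) := by
  have hpi := Real.pi_gt_three
  set e := h.mono.orderIsoOfSurjective H h.surj with he
  set G : ℝ → ℝ := fun u => e.symm u with hG
  have hGc : Continuous G := e.symm.continuous
  have hGm : Monotone G := e.symm.monotone
  have hHG : ∀ u, H (G u) = u := fun u => e.apply_symm_apply u
  have hGH : ∀ x, G (H x) = x := fun x => e.symm_apply_apply x
  have hlt : ∀ x u, u < H x ↔ G u < x := by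
    intro x u
    rw [← h.mono.lt_iff_lt (a := G u) (b := x), hHG]
  have hle : ∀ x u, H x ≤ u ↔ x ≤ G u := by
    intro x u
    rw [← h.mono.le_iff_le (a := x) (b := G u), hHG]
  have hle' : ∀ x u, u ≤ H x ↔ G u ≤ x := by
    intro x u
    rw [← h.mono.le_iff_le (a := G u) (b := x), hHG]
  have hper0 : H (2 * π) = H 0 + 2 * π := by simpa using h.per 0
  rw [quantile h.cont hlt hle h.mono.monotone hper0]
  have hδ1 : δ ≤ 1 / 4 := by
    have : (1:ℝ) ≤ 2 ^ J := one_le_pow₀ (by norm_num)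
    nlinarith
  set g : ℝ → ℝ := fun u => w (G u) with hg
  have hgc : Continuous g := w_cont.comp hGc
  have hg0 : ∀ u, 0 ≤ g u := fun u => w_nonneg _
  have hsub : ∀ a b, H 0 ≤ a → a ≤ b → b ≤ H 0 + 2 * π →
      ∫ u in a..b, g u ≤ ∫ u in (H 0)..(H 0 + 2 * π), g u := by
    intro a b h1 h2 h3
    exact intervalIntegral.integral_mono_interval h1 h2 h3 (ae_of_all _ hg0)
      (hgc.intervalIntegrable _ _)
  have hperδ : H (2 * π - δ) = H (-δ) + 2 * π := by
    have := h.per (-δ)
    rwa [show -δ + 2 * π = 2 * π - δ by ring] at this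
  have hperδ' : H (2 * π + δ) = H δ + 2 * π := by
    have := h.per δ
    rwa [show δ + 2 * π = 2 * π + δ by ring] at this
  constructor
  · have h1 : H δ ≤ H (2 * π - δ) := h.mono.monotone (by linarith)
    refine le_trans ?_ (hsub (H δ) (H (2 * π - δ)) (h.mono.monotone hδ.le) h1
      (hper0 ▸ h.mono.monotone (by linarith)))
    have h2 : ∫ u in (H δ)..(H (2 * π - δ)), w δ ≤ ∫ u in (H δ)..(H (2 * π - δ)), g u := by
      refine intervalIntegral.integral_mono_on h1 (continuous_const.intervalIntegrable _ _)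
        (hgc.intervalIntegrable _ _) (fun u hu => ?_)
      have a1 : δ ≤ G u := (hle _ _).mp hu.1
      have a2 : G u ≤ 2 * π - δ := (hle' _ _).mp hu.2
      rcases le_total (G u) π with b | b
      · exact w_mono hδ.le a1 b
      · simp only [hg]
        rw [← w_refl (G u)]
        exact w_mono hδ.le (by linarith) (by linarith)
    rw [intervalIntegral.integral_const, smul_eq_mul, hperδ] at h2
    rw [hperδ]
    linarith
  · set m := (H δ - H (-δ)) / M with hm
    have hm0 : 0 < m := div_pos (sub_pos.mpr (h.mono (by linarith))) hM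
    have hmM : H δ - H (-δ) = M * m := by rw [hm]; field_simp
    have stepL : ∀ u, 3 * δ ≤ G u → G u ≤ 2 * π - δ → (G u - δ) / 2 ≤ G (u - m) := by
      intro u h1 h2
      rw [← hle]
      have hq := h.qs2 ((G u - δ) / 2) ((G u - δ) / 2 + δ) (by linarith) (by linarith)
      rw [show (G u - δ) / 2 - ((G u - δ) / 2 + δ) = -δ by ring,
        show (G u - δ) / 2 + ((G u - δ) / 2 + δ) = G u by ring, hHG] at hq
      have h3 : H δ ≤ H ((G u - δ) / 2) := h.mono.monotone (by linarith)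
      have h4 : M * m ≤ M * (u - H ((G u - δ) / 2)) := by linarith
      have := le_of_mul_le_mul_left h4 hM
      linarith
    have stepR : ∀ u, 3 * δ ≤ 2 * π - G u → δ ≤ G u →
        (2 * π - G u - δ) / 2 ≤ 2 * π - G (u + m) := by
      intro u h1 h2
      have : G (u + m) ≤ 2 * π - (2 * π - G u - δ) / 2 := by
        rw [← hle']
        have hq := h.qs1 (2 * π - (2 * π - G u - δ) / 2) ((2 * π - G u - δ) / 2 + δ)
          (by linarith) (by linarith)
        rw [show 2 * π - (2 * π - G u - δ) / 2 + ((2 * π - G u - δ) / 2 + δ) = 2 * π + δ by ring,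
          show 2 * π - (2 * π - G u - δ) / 2 - ((2 * π - G u - δ) / 2 + δ) = G u by ring, hHG,
          hperδ'] at hq
        have h3 : H (2 * π - (2 * π - G u - δ) / 2) ≤ H (2 * π - δ) :=
          h.mono.monotone (by linarith)
        rw [hperδ] at h3
        have h4 : M * m ≤ M * (H (2 * π - (2 * π - G u - δ) / 2) - u) := by linarith
        have := le_of_mul_le_mul_left h4 hM
        linarith
      linarith
    set u0 := H π with hu0
    have hGu0 : G u0 = π := hGH π
    have hGle : ∀ u, u ≤ u0 → G u ≤ π := fun u hu => hGu0 ▸ hGm hu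
    have hGge : ∀ u, u0 ≤ u → π ≤ G u := fun u hu => hGu0 ▸ hGm hu
    have hL1 : (π - δ) / 2 ≤ G (u0 - m) := by
      have := stepL u0 (by linarith) (by linarith)
      rwa [hGu0] at this
    have hR1 : (π - δ) / 2 ≤ 2 * π - G (u0 + m) := by
      have := stepR u0 (by linarith) (by linarith)
      rw [hGu0] at this
      linarith
    -- the two chains
    have hLstep : ∀ s, 0 ≤ s → ∀ j : ℕ, 3 * δ ≤ G (u0 - s - j * m) →
        (G (u0 - s - j * m) - δ) / 2 ≤ G (u0 - s - (j + 1 : ℕ) * m) := by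
      intro s hs j hj
      have h1 : G (u0 - s - j * m) ≤ π := hGle _ (by
        have : 0 ≤ (j:ℝ) * m := by positivity
        linarith)
      have := stepL _ hj (by linarith)
      rwa [show u0 - s - j * m - m = u0 - s - (j + 1 : ℕ) * m by push_cast; ring] at this
    have hRstep : ∀ s, s ≤ m → ∀ j : ℕ, 3 * δ ≤ 2 * π - G (u0 - s + m + j * m) →
        (2 * π - G (u0 - s + m + j * m) - δ) / 2 ≤ 2 * π - G (u0 - s + m + (j + 1 : ℕ) * m) := by
      intro s hs j hj
      have h1 : π ≤ G (u0 - s + m + j * m) := hGge _ (by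
        have : 0 ≤ (j:ℝ) * m := by positivity
        linarith)
      have := stepR _ hj (by linarith)
      rwa [show u0 - s + m + j * m + m = u0 - s + m + (j + 1 : ℕ) * m by push_cast; ring] at this
    have hpt : ∀ s ∈ Icc 0 m, 2 * W (J + 2) (2 * π / 3) - (J + 2) * (4 * δ) ≤
        ∑ j ∈ Finset.range (J + 2), g (u0 - s - j * m) +
        ∑ j ∈ Finset.range (J + 2), g (u0 - s + m + j * m) := by
      intro s hs
      have p0 : (π - δ) / 2 ≤ G (u0 - s) := hL1.trans (hGm (by linarith [hs.2]))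
      have p0' : (π - δ) / 2 ≤ 2 * π - G (u0 - s + m) := by
        have : G (u0 - s + m) ≤ G (u0 + m) := hGm (by linarith [hs.1])
        linarith
      have p1 : G (u0 - s) ≤ π := hGle _ (by linarith [hs.1])
      have p1' : π ≤ G (u0 - s + m) := hGge _ (by linarith [hs.2])
      have c1 := chain_sum J hδ (fun j => G (u0 - s - j * m))
        (fun j => hGle _ (by
          have : 0 ≤ (j:ℝ) * m := by positivity
          linarith [hs.1]))
        (hLstep s hs.1) (by simp only [Nat.cast_zero, zero_mul, sub_zero]; linarith)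
      have c2 := chain_sum J hδ (fun j => 2 * π - G (u0 - s + m + j * m))
        (fun j => by
          have : π ≤ G (u0 - s + m + j * m) := hGge _ (by
            have : 0 ≤ (j:ℝ) * m := by positivity
            linarith [hs.2])
          linarith)
        (hRstep s hs.2) (by simp only [Nat.cast_zero, zero_mul, add_zero]; linarith)
      simp only [Nat.cast_zero, zero_mul, sub_zero, add_zero, w_refl] at c1 c2
      have r1 := stepL (u0 - s + m) (by linarith) (by linarith)
      rw [add_sub_cancel_right] at r1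
      have r2 := stepR (u0 - s) (by linarith) (by linarith)
      have c3 := W_pair J (t := min π (G (u0 - s) + δ)) (s := min π (2 * π - G (u0 - s + m) + δ))
        (min_le_left _ _) (min_le_left _ _)
        (by rcases min_cases π (G (u0 - s) + δ) with ⟨a, _⟩ | ⟨a, _⟩ <;>
            rcases min_cases π (2 * π - G (u0 - s + m) + δ) with ⟨b, _⟩ | ⟨b, _⟩ <;>
            rw [a, b] <;> linarith)
        (by rcases min_cases π (G (u0 - s) + δ) with ⟨a, _⟩ | ⟨a, _⟩ <;>
            rcases min_cases π (2 * π - G (u0 - s + m) + δ) with ⟨b, _⟩ | ⟨b, _⟩ <;>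
            rw [a, b] <;> linarith)
      simp only [hg]
      linarith
    have hI : ∫ s in (0:ℝ)..m, (2 * W (J + 2) (2 * π / 3) - (J + 2) * (4 * δ)) ≤
        ∫ s in (0:ℝ)..m, (∑ j ∈ Finset.range (J + 2), g (u0 - s - j * m) +
          ∑ j ∈ Finset.range (J + 2), g (u0 - s + m + j * m)) :=
      intervalIntegral.integral_mono_on hm0.le (continuous_const.intervalIntegrable _ _)
        (Continuous.intervalIntegrable (by fun_prop) _ _) hpt
    rw [intervalIntegral.integral_const, smul_eq_mul, sub_zero] at hI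
    refine hI.trans ?_
    rw [intervalIntegral.integral_add (Continuous.intervalIntegrable (by fun_prop) _ _)
      (Continuous.intervalIntegrable (by fun_prop) _ _),
      intervalIntegral.integral_finsetSum
        (fun j _ => Continuous.intervalIntegrable (by fun_prop) _ _),
      intervalIntegral.integral_finsetSum
        (fun j _ => Continuous.intervalIntegrable (by fun_prop) _ _)]
    have eL : ∀ j : ℕ, ∫ s in (0:ℝ)..m, g (u0 - s - j * m)
        = -∫ u in (u0 - j * m)..(u0 - (j + 1 : ℕ) * m), g u := by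
      intro j
      have : (fun s => g (u0 - s - j * m)) = fun s => g ((u0 - j * m) - s) := by
        ext s; congr 1; ring
      rw [this, intervalIntegral.integral_comp_sub_left g, intervalIntegral.integral_symm]
      congr 2
      · simp
      · push_cast; ring
    have eR : ∀ j : ℕ, ∫ s in (0:ℝ)..m, g (u0 - s + m + j * m)
        = ∫ u in (u0 + j * m)..(u0 + (j + 1 : ℕ) * m), g u := by
      intro j
      have : (fun s => g (u0 - s + m + j * m)) = fun s => g ((u0 + m + j * m) - s) := by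
        ext s; congr 1; ring
      rw [this, intervalIntegral.integral_comp_sub_left g]
      congr 1
      · ring
      · push_cast; ring
    simp_rw [eL, eR]
    rw [Finset.sum_neg_distrib,
      intervalIntegral.sum_integral_adjacent_intervals (a := fun j : ℕ => u0 - j * m)
        (fun k _ => hgc.intervalIntegrable _ _),
      intervalIntegral.sum_integral_adjacent_intervals (a := fun j : ℕ => u0 + j * m)
        (fun k _ => hgc.intervalIntegrable _ _), ← intervalIntegral.integral_symm]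
    simp only [Nat.cast_zero, zero_mul, sub_zero, add_zero]
    rw [intervalIntegral.integral_add_adjacent_intervals (hgc.intervalIntegrable _ _)
      (hgc.intervalIntegrable _ _)]
    have hpow : 4 * δ * 2 ^ J ≤ (π - δ) / 2 := by linarith
    have hend : ∀ x, (π - δ) / 2 ≤ x → 0 ≤ x / 2 ^ (J + 1) - δ := by
      intro x hx
      have : δ ≤ x / 2 ^ (J + 1) := by
        rw [le_div_iff₀ (by positivity), pow_succ]
        have : 0 < δ * 2 ^ J := by positivity
        linarith
      linarith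
    refine hsub _ _ ?_ ?_ ?_
    · have := chain J hδ (fun j => G (u0 - m - j * m)) (hLstep m hm0.le)
        (by simp only [Nat.cast_zero, zero_mul, sub_zero]; linarith) (J + 1) le_rfl
      simp only [Nat.cast_zero, zero_mul, sub_zero] at this
      have h2 := hend _ hL1
      rw [hle, show u0 - ((J + 2 : ℕ) : ℝ) * m = u0 - m - ((J + 1 : ℕ) : ℝ) * m by push_cast; ring]
      linarith
    · have : 0 ≤ ((J + 2 : ℕ) : ℝ) * m := by positivity
      linarith
    · have := chain J hδ (fun j => 2 * π - G (u0 - 0 + m + j * m)) (hRstep 0 hm0.le)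
        (by simp only [Nat.cast_zero, zero_mul, sub_zero, add_zero]; linarith) (J + 1) le_rfl
      simp only [Nat.cast_zero, zero_mul, sub_zero, add_zero] at this
      have h2 := hend _ hR1
      rw [← hper0, hle',
        show u0 + ((J + 2 : ℕ) : ℝ) * m = u0 + m + ((J + 1 : ℕ) : ℝ) * m by push_cast; ring]
      linarith

end Pool.Agent.MP_e5b4ec_an

end

section

open Real MeasureTheory Filter Topology Set

namespace Pool.Agent.MP_e5b4ec_an

/-- ramp from 0 to 1 on `[2π/3, 2π/3+η]` -/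
noncomputable def R (η x : ℝ) : ℝ := max 0 (min 1 ((x - 2 * π / 3) / η))

/-- background -/
noncomputable def K (x : ℝ) : ℝ := max 0 (min x π) / π

noncomputable def B (η x : ℝ) : ℝ := (1 - η) * R η x + η * K x

section
variable {η : ℝ}

lemma R_nonneg (x : ℝ) : 0 ≤ R η x := le_max_left _ _
lemma R_le_one (x : ℝ) : R η x ≤ 1 := max_le zero_le_one (min_le_left _ _)
lemma R_cont : Continuous (R η) := by unfold R; fun_prop
lemma R_mono (hη : 0 < η) : Monotone (R η) := by
  intro x y h; unfold R; gcongr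
lemma R_zero (hη : 0 < η) {x : ℝ} (hx : x ≤ 2 * π / 3) : R η x = 0 := by
  unfold R
  refine max_eq_left ((min_le_right _ _).trans ?_)
  exact div_nonpos_of_nonpos_of_nonneg (by linarith) hη.le
lemma R_one (hη : 0 < η) {x : ℝ} (hx : 2 * π / 3 + η ≤ x) : R η x = 1 := by
  unfold R
  rw [min_eq_left (by rw [le_div_iff₀ hη]; linarith), max_eq_right zero_le_one]
lemma clamp_lip (a b x y : ℝ) (h : x ≤ y) : max a (min b y) - max a (min b x) ≤ y - x := by
  simp only [max_def, min_def]
  split_ifs <;> linarith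
lemma R_lip (hη : 0 < η) {x y : ℝ} (h : x ≤ y) : R η y - R η x ≤ (y - x) / η := by
  have := clamp_lip 0 1 ((x - 2 * π / 3) / η) ((y - 2 * π / 3) / η) (by gcongr)
  unfold R
  refine this.trans (le_of_eq ?_)
  ring

lemma K_nonneg (x : ℝ) : 0 ≤ K x := div_nonneg (le_max_left _ _) Real.pi_pos.le
lemma K_le_one (x : ℝ) : K x ≤ 1 := by
  unfold K
  rw [div_le_one Real.pi_pos]
  exact max_le Real.pi_pos.le (min_le_right _ _)
lemma K_cont : Continuous K := by unfold K; fun_prop
lemma K_mono : Monotone K := by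
  intro x y h; unfold K; have := Real.pi_pos; gcongr
lemma K_zero {x : ℝ} (hx : x ≤ 0) : K x = 0 := by
  unfold K; rw [max_eq_left ((min_le_left _ _).trans hx), zero_div]
lemma K_one {x : ℝ} (hx : π ≤ x) : K x = 1 := by
  unfold K; rw [min_eq_right hx, max_eq_right Real.pi_pos.le, div_self Real.pi_ne_zero]
lemma K_mid {x : ℝ} (h0 : 0 ≤ x) (hx : x ≤ π) : K x = x / π := by
  unfold K; rw [min_eq_left hx, max_eq_right h0]
lemma K_lip {x y : ℝ} (h : x ≤ y) : K y - K x ≤ y - x := by
  have := clamp_lip 0 π x y h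
  rw [min_comm π y, min_comm π x] at this
  unfold K
  rw [← sub_div, div_le_iff₀ Real.pi_pos]
  nlinarith [Real.pi_gt_three]

lemma B_nonneg (hη : 0 < η) (hη1 : η ≤ 1 / 2) (x : ℝ) : 0 ≤ B η x := by
  unfold B
  have := R_nonneg (η := η) x
  have := K_nonneg x
  have : 0 ≤ 1 - η := by linarith
  positivity
lemma B_le_one (hη : 0 < η) (hη1 : η ≤ 1 / 2) (x : ℝ) : B η x ≤ 1 := by
  unfold B
  nlinarith [R_le_one (η := η) x, K_le_one x]
lemma B_cont : Continuous (B η) := by
  unfold B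
  exact (continuous_const.mul R_cont).add (continuous_const.mul K_cont)
lemma B_zero (hη : 0 < η) {x : ℝ} (hx : x ≤ 0) : B η x = 0 := by
  unfold B; rw [R_zero hη (by linarith [Real.pi_pos]), K_zero hx]; ring
lemma B_one (hη : 0 < η) (hη1 : η ≤ 1 / 2) {x : ℝ} (hx : π ≤ x) : B η x = 1 := by
  unfold B; rw [R_one hη (by linarith [Real.pi_gt_three]), K_one hx]; ring
lemma B_mono (hη : 0 < η) (hη1 : η ≤ 1 / 2) : Monotone (B η) := by
  intro x y h
  unfold B
  have h1 := R_mono hη h
  have h2 := K_mono h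
  have : 0 ≤ 1 - η := by linarith
  gcongr
lemma B_low (hη : 0 < η) (hη1 : η ≤ 1 / 2) {x y : ℝ} (h0 : 0 ≤ x) (h : x ≤ y) (hy : y ≤ π) :
    η * (y - x) / π ≤ B η y - B η x := by
  unfold B
  rw [K_mid h0 (h.trans hy), K_mid (h0.trans h) hy]
  have h1 := R_mono hη h
  have : 0 ≤ (1 - η) * (R η y - R η x) := mul_nonneg (by linarith) (by linarith)
  have e : η * (y - x) / π = η * (y / π) - η * (x / π) := by ring
  linarith
lemma B_lip (hη : 0 < η) (hη1 : η ≤ 1 / 2) {x y : ℝ} (h : x ≤ y) :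
    B η y - B η x ≤ 2 / η * (y - x) := by
  unfold B
  have h1 := R_lip hη h
  have h2 := K_lip h
  have h3 := R_mono hη h
  have h4 : y - x ≤ (y - x) / η := by
    rw [le_div_iff₀ hη]; nlinarith
  have e : 2 / η * (y - x) = 2 * ((y - x) / η) := by ring
  nlinarith
lemma B_small (hη : 0 < η) {x : ℝ} (h0 : 0 ≤ x) (hx : x ≤ 2 * π / 3) : B η x = η * x / π := by
  unfold B
  rw [R_zero hη hx, K_mid h0 (by linarith [Real.pi_pos])]; ring
lemma B_le_self (hη : 0 < η) (hη1 : η ≤ 1 / 2) {x : ℝ} (h0 : 0 ≤ x) : B η x ≤ x := by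
  rcases le_total x (2 * π / 3) with h | h
  · rw [B_small hη h0 h, div_le_iff₀ Real.pi_pos]
    nlinarith [Real.pi_gt_three]
  · linarith [B_le_one hη hη1 x, Real.pi_gt_three]
lemma B_bump (hη : 0 < η) :
    1 - η ≤ B η (2 * π / 3 + η) - B η (2 * π / 3) := by
  unfold B
  rw [R_one hη le_rfl, R_zero hη le_rfl]
  have := K_mono (show 2 * π / 3 ≤ 2 * π / 3 + η by linarith)
  nlinarith

end

/-- the self-similar distribution function -/
noncomputable def f (η q x : ℝ) : ℝ := ∑' k : ℕ, π * (1 - q) * q ^ k * B η (2 ^ k * x)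

structure Par (η q : ℝ) : Prop where
  h1 : 0 < η
  h2 : η ≤ 1 / 2
  h3 : 3 / 4 ≤ q
  h4 : q < 1

section
variable {η q : ℝ} (P : Par η q)
include P

lemma Par.q0 : 0 < q := by linarith [P.h3]
lemma Par.c0 : 0 < π * (1 - q) := mul_pos Real.pi_pos (by linarith [P.h4])

lemma term_bound (k : ℕ) (x : ℝ) :
    ‖π * (1 - q) * q ^ k * B η (2 ^ k * x)‖ ≤ π * (1 - q) * q ^ k := by
  have h1 := B_nonneg P.h1 P.h2 (2 ^ k * x)
  have h2 := B_le_one P.h1 P.h2 (2 ^ k * x)
  have h3 : 0 < π * (1 - q) * q ^ k := mul_pos P.c0 (pow_pos P.q0 k)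
  rw [Real.norm_eq_abs, abs_of_nonneg (by positivity)]
  nlinarith

lemma geo_summ : Summable (fun k : ℕ => π * (1 - q) * q ^ k) :=
  (summable_geometric_of_lt_one P.q0.le P.h4).mul_left _

lemma f_summ (x : ℝ) : Summable (fun k : ℕ => π * (1 - q) * q ^ k * B η (2 ^ k * x)) :=
  Summable.of_norm_bounded (geo_summ P) (fun k => term_bound P k x)

lemma f_cont : Continuous (f η q) := by
  unfold f
  refine continuous_tsum (fun k => ?_) (geo_summ P) (fun k x => term_bound P k x)
  exact continuous_const.mul (B_cont.comp (by fun_prop))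

lemma f_mono : Monotone (f η q) := by
  intro x y h
  refine (f_summ P x).tsum_le_tsum (fun k => ?_) (f_summ P y)
  have h3 : 0 < π * (1 - q) * q ^ k := mul_pos P.c0 (pow_pos P.q0 k)
  exact mul_le_mul_of_nonneg_left (B_mono P.h1 P.h2 (by gcongr)) h3.le

lemma f_zero {x : ℝ} (hx : x ≤ 0) : f η q x = 0 := by
  unfold f
  have : ∀ k : ℕ, B η (2 ^ k * x) = 0 := fun k =>
    B_zero P.h1 (mul_nonpos_of_nonneg_of_nonpos (by positivity) hx)
  simp [this]

lemma f_pi {x : ℝ} (hx : π ≤ x) : f η q x = π := by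
  unfold f
  have : ∀ k : ℕ, B η (2 ^ k * x) = 1 := fun k => B_one P.h1 P.h2 (by
    have : (1:ℝ) ≤ 2 ^ k := one_le_pow₀ (by norm_num)
    nlinarith [Real.pi_pos])
  simp only [this, mul_one]
  rw [tsum_mul_left, tsum_geometric_of_lt_one P.q0.le P.h4]
  have : 1 - q ≠ 0 := by linarith [P.h4]
  field_simp

lemma f_nonneg (x : ℝ) : 0 ≤ f η q x := by
  have := f_mono P (min_le_left x 0)
  rwa [f_zero P (min_le_right x 0)] at this

lemma f_le_pi (x : ℝ) : f η q x ≤ π := by
  have := f_mono P (le_max_left x π)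
  rwa [f_pi P (le_max_right x π)] at this

lemma f_eq (x : ℝ) : f η q x = π * (1 - q) * B η x + q * f η q (2 * x) := by
  unfold f
  rw [(f_summ P x).tsum_eq_zero_add, ← tsum_mul_left]
  congr 1
  · simp
  · congr 1
    ext k
    rw [show (2:ℝ) ^ (k + 1) * x = 2 ^ k * (2 * x) by ring]
    ring

lemma f_iter (n : ℕ) (x : ℝ) : f η q x =
    ∑ j ∈ Finset.range n, π * (1 - q) * q ^ j * B η (2 ^ j * x) + q ^ n * f η q (2 ^ n * x) := by
  induction n with
  | zero => simp
  | succ n ih =>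
    rw [Finset.sum_range_succ, ih, f_eq P (2 ^ n * x),
      show 2 * (2 ^ n * x) = (2:ℝ) ^ (n + 1) * x by ring]
    ring

lemma f_ge_q (x : ℝ) : q * f η q (2 * x) ≤ f η q x := by
  have := f_eq P x
  have h1 := mul_nonneg P.c0.le (B_nonneg P.h1 P.h2 x)
  linarith

lemma f_double (x : ℝ) : f η q (2 * x) ≤ 2 * f η q x := by
  have := f_ge_q P x
  have h2 := f_nonneg P (2 * x)
  nlinarith [P.h3]

omit P in
lemma exists_scale {r : ℝ} (h0 : 0 < r) (hr : r ≤ π) : ∃ k : ℕ, π < 2 ^ (k + 1) * r ∧ 2 ^ k * r ≤ π := by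
  have h1 : 1 ≤ π / r := by rw [le_div_iff₀ h0]; linarith
  obtain ⟨k, hk1, hk2⟩ := exists_nat_pow_near h1 (by norm_num : (1:ℝ) < 2)
  refine ⟨k, ?_, ?_⟩
  · rwa [div_lt_iff₀ h0] at hk2
  · rwa [le_div_iff₀ h0] at hk1

lemma f_scale_low {r : ℝ} {k : ℕ} (hk : π < 2 ^ (k + 1) * r) : π * q ^ (k + 1) ≤ f η q r := by
  rw [f_iter P (k + 1) r, f_pi P hk.le]
  have : 0 ≤ ∑ j ∈ Finset.range (k + 1), π * (1 - q) * q ^ j * B η (2 ^ j * r) :=
    Finset.sum_nonneg (fun j _ => mul_nonneg (mul_pos P.c0 (pow_pos P.q0 j)).le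
      (B_nonneg P.h1 P.h2 _))
  linarith

lemma geo2 (n : ℕ) : ∑ j ∈ Finset.range n, (2 * q) ^ j ≤ 2 * (2 * q) ^ n := by
  induction n with
  | zero => simp
  | succ n ih =>
    rw [Finset.sum_range_succ, pow_succ]
    have : 0 < (2 * q) ^ n := pow_pos (by linarith [P.h3]) n
    nlinarith [P.h3]

lemma f_scale_up {r : ℝ} {k : ℕ} (h0 : 0 ≤ r) (hk : 2 ^ k * r ≤ π) : f η q r ≤ 3 * π * q ^ k := by
  rw [f_iter P k r]
  have h1 : ∑ j ∈ Finset.range k, π * (1 - q) * q ^ j * B η (2 ^ j * r) ≤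
      ∑ j ∈ Finset.range k, π * (1 - q) * r * (2 * q) ^ j := by
    refine Finset.sum_le_sum (fun j _ => ?_)
    have h3 : 0 < π * (1 - q) * q ^ j := mul_pos P.c0 (pow_pos P.q0 j)
    have := mul_le_mul_of_nonneg_left (B_le_self P.h1 P.h2 (x := 2 ^ j * r) (by positivity)) h3.le
    rw [mul_pow]
    linarith
  rw [← Finset.mul_sum] at h1
  have h2 := mul_le_mul_of_nonneg_left (geo2 P k) (mul_nonneg P.c0.le h0)
  have h3 : 0 < q ^ k := pow_pos P.q0 k
  have h4 : q ^ k * f η q (2 ^ k * r) ≤ q ^ k * π := mul_le_mul_of_nonneg_left (f_le_pi P _) h3.le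
  have h5 : π * (1 - q) * r * (2 * (2 * q) ^ k) = 2 * (π * (1 - q)) * q ^ k * (2 ^ k * r) := by
    rw [mul_pow]; ring
  have h6 : 2 * (π * (1 - q)) * q ^ k * (2 ^ k * r) ≤ 2 * (π * (1 - q)) * q ^ k * π :=
    mul_le_mul_of_nonneg_left hk (by have := P.c0; positivity)
  have h7 : π * (1 - q) ≤ 1 := by nlinarith [Real.pi_lt_four, P.h3, P.h4, Real.pi_pos]
  have h8 : 0 < q ^ k * π := mul_pos h3 Real.pi_pos
  nlinarith

lemma f_half {r : ℝ} (h0 : 0 ≤ r) (hr : r ≤ π) : r / 3 ≤ f η q r := by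
  rcases h0.eq_or_lt with rfl | h0
  · simpa using f_nonneg P 0
  obtain ⟨k, hk1, hk2⟩ := exists_scale h0 hr
  have h1 := f_scale_low P hk1
  have h2 : (1:ℝ) ≤ (2 * q) ^ k := one_le_pow₀ (by linarith [P.h3])
  rw [mul_pow] at h2
  have h3 : 0 < q ^ k := pow_pos P.q0 k
  have h4 : r ≤ π * q ^ k := by nlinarith
  rw [pow_succ] at h1
  nlinarith [P.h3]

/-- lower slope -/
lemma f_slope_low {r x y : ℝ} (h0 : 0 < r) (hr : r ≤ π) (hx : 0 ≤ x) (hxy : x ≤ y) (hy : y ≤ r) :
    (1 - q) * η / 6 * (f η q r / r) * (y - x) ≤ f η q y - f η q x := by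
  obtain ⟨k, hk1, hk2⟩ := exists_scale h0 hr
  have h1 := f_scale_up P h0.le hk2
  have h3 : 0 < q ^ k := pow_pos P.q0 k
  have hpi := Real.pi_pos
  have key : (1 - q) * η * (q ^ k * 2 ^ k) * (y - x) ≤ f η q y - f η q x := by
    rw [f_iter P (k + 1) y, f_iter P (k + 1) x, Finset.sum_range_succ, Finset.sum_range_succ]
    have a1 : ∑ j ∈ Finset.range k, π * (1 - q) * q ^ j * B η (2 ^ j * x) ≤
        ∑ j ∈ Finset.range k, π * (1 - q) * q ^ j * B η (2 ^ j * y) :=
      Finset.sum_le_sum (fun j _ => mul_le_mul_of_nonneg_left (B_mono P.h1 P.h2 (by gcongr))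
        (mul_pos P.c0 (pow_pos P.q0 j)).le)
    have a2 : q ^ (k + 1) * f η q (2 ^ (k + 1) * x) ≤ q ^ (k + 1) * f η q (2 ^ (k + 1) * y) :=
      mul_le_mul_of_nonneg_left (f_mono P (by gcongr)) (pow_pos P.q0 _).le
    have a3 := B_low P.h1 P.h2 (x := 2 ^ k * x) (y := 2 ^ k * y) (by positivity) (by gcongr)
      (le_trans (by gcongr) hk2)
    have a4 := mul_le_mul_of_nonneg_left a3 (mul_pos P.c0 h3).le
    have e : π * (1 - q) * q ^ k * (η * (2 ^ k * y - 2 ^ k * x) / π)
        = (1 - q) * η * (q ^ k * 2 ^ k) * (y - x) := by field_simp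
    linarith
  refine le_trans ?_ key
  have b1 : f η q r / r ≤ 6 * (q ^ k * 2 ^ k) := by
    rw [div_le_iff₀ h0]
    rw [pow_succ] at hk1
    nlinarith
  have b2 : 0 ≤ (1 - q) * η / 6 * (y - x) := by
    have := P.h1; have : 0 < 1 - q := by linarith [P.h4]
    have : 0 ≤ y - x := by linarith
    positivity
  nlinarith

/-- upper slope -/
lemma f_slope_up {r x y : ℝ} (h0 : 0 < r) (hr : r ≤ π) (hx : r ≤ x) (hxy : x ≤ y) :
    f η q y - f η q x ≤ 40 * (1 - q) / η * (f η q r / r) * (y - x) := by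
  obtain ⟨k, hk1, hk2⟩ := exists_scale h0 hr
  have h1 := f_scale_low P hk1
  have h3 : 0 < q ^ k := pow_pos P.q0 k
  have hpi := Real.pi_pos
  have hη := P.h1
  have hq1 : 0 < 1 - q := by linarith [P.h4]
  have hd : 0 ≤ y - x := by linarith
  have key : f η q y - f η q x ≤ π * (1 - q) * (2 / η) * (y - x) * (2 * (2 * q) ^ (k + 1)) := by
    rw [f_iter P (k + 1) y, f_iter P (k + 1) x,
      f_pi P (x := 2 ^ (k + 1) * x) (hk1.le.trans (by gcongr)),
      f_pi P (x := 2 ^ (k + 1) * y) (hk1.le.trans (by gcongr; linarith)), add_sub_add_right_eq_sub,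
      ← Finset.sum_sub_distrib]
    refine le_trans ?_ (mul_le_mul_of_nonneg_left (geo2 P (k + 1)) (by positivity))
    rw [Finset.mul_sum]
    refine Finset.sum_le_sum (fun j _ => ?_)
    have a := mul_le_mul_of_nonneg_left
      (B_lip P.h1 P.h2 (x := 2 ^ j * x) (y := 2 ^ j * y) (by gcongr)) (mul_pos P.c0 (pow_pos P.q0 j)).le
    have e : π * (1 - q) * q ^ j * (2 / η * (2 ^ j * y - 2 ^ j * x))
        = π * (1 - q) * (2 / η) * (y - x) * (2 * q) ^ j := by rw [mul_pow]; ring
    linarith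
  refine key.trans ?_
  have b1 : (2 * q) ^ (k + 1) ≤ 2 * (f η q r / r) := by
    rw [← mul_div_assoc, le_div_iff₀ h0, mul_pow]
    have : 0 < q ^ (k + 1) := pow_pos P.q0 _
    rw [pow_succ 2]
    nlinarith
  have b2 : 0 ≤ (1 - q) / η * (y - x) := by positivity
  have b3 : 0 ≤ f η q r / r := div_nonneg (f_nonneg P r) h0.le
  have e1 : π * (1 - q) * (2 / η) * (y - x) * (2 * (2 * q) ^ (k + 1))
      = (1 - q) / η * (y - x) * (4 * π * (2 * q) ^ (k + 1)) := by ring
  have e2 : 40 * (1 - q) / η * (f η q r / r) * (y - x)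
      = (1 - q) / η * (y - x) * (40 * (f η q r / r)) := by ring
  rw [e1, e2]
  refine mul_le_mul_of_nonneg_left ?_ b2
  nlinarith [Real.pi_lt_four]

/-- the dyadic gain below `2π/3` -/
lemma f_gain {b : ℝ} (h0 : 0 ≤ b) (hb : b ≤ 2 * π / 3) :
    (1 - q) * (1 - 2 * η) * f η q (2 * b) ≤ f η q (2 * b) - f η q b := by
  have h1 := f_eq P b
  rw [B_small P.h1 h0 hb] at h1
  have hpi := Real.pi_pos
  have e : π * (1 - q) * (η * b / π) = (1 - q) * η * b := by field_simp
  have h2 : b ≤ 2 * f η q (2 * b) := by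
    rcases le_total (2 * b) π with h | h
    · linarith [f_half P (r := 2 * b) (by linarith) h]
    · rw [f_pi P h]; linarith
  have hq1 : 0 < 1 - q := by linarith [P.h4]
  have := mul_le_mul_of_nonneg_left h2 (mul_pos hq1 P.h1).le
  nlinarith

lemma f_bump : π * (1 - q) * (1 - η) ≤ f η q (2 * π / 3 + η) - f η q (2 * π / 3) := by
  have hpi := Real.pi_pos
  rw [f_eq P (2 * π / 3 + η), f_eq P (2 * π / 3), f_pi P (x := 2 * (2 * π / 3)) (by linarith),
    f_pi P (x := 2 * (2 * π / 3 + η)) (by linarith [P.h1])]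
  have := mul_le_mul_of_nonneg_left (B_bump P.h1) P.c0.le
  linarith

end

end Pool.Agent.MP_e5b4ec_an

end
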